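import Pool.Agent.Helper976.Fac.Lemmas2
import Pool.Agent.Helper976.Fac.Defs3
import Pool.Agent.Helper976.Fac.J855
import Pool.Agent.Helper976.Fac.J856

set_option autoImplicit false
open scoped BigOperators Topology
open Filter

namespace Pool.Agent.Y320.FR

abbrev GV := (hyperfilter ℕ : Filter ℕ).Germ ℝ

/-- limit of a bounded family of functions on `ℝ` as a function on the ultrapower -/
noncomputable def star (h : ℕ → ℝ → ℂ) (v : GV) : ℂ :=
  limUnder (hyperfilter ℕ : Filter ℕ) (fun n => h n ((Quotient.out v : ℕ → ℝ) n))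

end Pool.Agent.Y320.FR
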