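import Pool.Agent.Y320.FR.GC

set_option autoImplicit false

open Filter Topology

namespace Pool.Agent.Y320.FR.G

open Pool.Agent.TH329.RatL1

section Concrete

variable {lam : ℝ} {τ : ℕ → ℝ}

/-- `s_m = τ_{20 m} / 2` -/
noncomputable def ss (τ : ℕ → ℝ) (m : ℕ) : ℝ := τ (20 * m) / 2

lemma ss_pos (h0 : ∀ k, 0 < τ k) (m : ℕ) : 0 < ss τ m := by
  unfold ss
  have := h0 (20 * m)
  linarith

lemma ss_anti (h0 : ∀ k, 0 < τ k) (h1 : ∀ k, τ (k + 1) ≤ τ k / 4) : StrictAnti (ss τ) := by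
  refine strictAnti_nat_of_succ_lt fun m => ?_
  unfold ss
  have h2 := tau_anti h0 h1 (show 20 * m + 1 ≤ 20 * (m + 1) by omega)
  have h3 := h1 (20 * m)
  have h4 := h0 (20 * m)
  linarith

/-- weight comparison below the window scale -/
lemma wt_shift (hl : 0 ≤ lam) {q σ : ℝ} (h : 2 * (lam * (q : ℝ) * (σ : ℝ)) ≤ 1) :
    wt lam (q - σ) ≤ 3 * wt lam q := by
  unfold wt
  have h3 : Real.exp 1 ≤ 3 := by
    have := Real.exp_one_lt_d9
    linarith
  have h4 : Real.exp (-(lam * ((q - σ : ℝ) : ℝ) ^ 2)) ≤ Real.exp 1 * Real.exp (-(lam * (q : ℝ) ^ 2)) := by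
    rw [← Real.exp_add]
    apply Real.exp_le_exp.2
    push_cast
    nlinarith [mul_nonneg hl (sq_nonneg (σ : ℝ))]
  exact h4.trans (mul_le_mul_of_nonneg_right h3 (Real.exp_pos _).le)

lemma pow_aux1 (i : ℕ) : (6 : ℝ) * (1 / 64) ^ (i + 2) ≤ (1 / 16) ^ (i + 2) := by
  have h : (1 / 64 : ℝ) ^ (i + 2) = (1 / 16) ^ (i + 2) * (1 / 4) ^ (i + 2) := by
    rw [← mul_pow]; norm_num
  rw [h]
  have h1 : (1 / 4 : ℝ) ^ (i + 2) ≤ 1 / 16 := by
    rw [pow_add]
    have : (1 / 4 : ℝ) ^ i ≤ 1 := pow_le_one₀ (by norm_num) (by norm_num)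
    norm_num
    linarith
  have h2 : (0 : ℝ) < (1 / 16) ^ (i + 2) := by positivity
  nlinarith

lemma pow_aux2 (i : ℕ) : (64 : ℝ) ^ (i + 2) ≤ (1 / 16) ^ (i + 2) * 2 ^ (20 * (i + 1)) := by
  have h : (2 : ℝ) ^ (20 * (i + 1)) = 1024 ^ (i + 2) * 1024 ^ i := by
    rw [← pow_add, show (1024 : ℝ) = 2 ^ 10 by norm_num, ← pow_mul]
    congr 1
    ring
  rw [h, ← mul_assoc, ← mul_pow]
  have h1 : (1 : ℝ) ≤ 1024 ^ i := one_le_pow₀ (by norm_num)
  have h2 : (1 / 16 * 1024 : ℝ) = 64 := by norm_num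
  rw [h2]
  have h3 : (0 : ℝ) < 64 ^ (i + 2) := by positivity
  nlinarith

open Classical in
theorem concrete (hlam : lam = 0 ∨ lam = 1) (h0 : ∀ k, 0 < τ k) (hτ0 : τ 0 ≤ 1 / 8)
    (h1 : ∀ k, τ (k + 1) ≤ τ k / 4) (k : Pos → ℕ) (hk1 : ∀ q, Win lam (τ (k q)) q)
    (hk2 : ∀ q, ∀ m < k q, ¬ Win lam (τ m) q)
    (a : Pos → ℂ) (ha : Summable fun q => ‖a q‖ * (2 ^ (k q) * wt lam q)) :
    ∃ b c u v : ℝ → ℂ,
      (∀ x, b x ≠ 0 → x ∈ Set.range (ss τ)) ∧ (∀ x, c x ≠ 0 → x ∈ Set.range (ss τ)) ∧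
      (∀ x ≤ 0, b x = 0) ∧ (∀ x ≤ 0, c x = 0) ∧ (∀ x ≤ 0, u x = 0) ∧ (∀ x ≤ 0, v x = 0) ∧
      (Summable fun x : ℝ => ‖b x‖ * wt lam x) ∧ (Summable fun x : ℝ => ‖c x‖ * wt lam x) ∧
      (Summable fun x : ℝ => ‖u x‖ * wt lam x) ∧ (Summable fun x : ℝ => ‖v x‖ * wt lam x) ∧
      ∀ t : Pos, a t = ∑' x : ℝ, b x * u (t - x) + ∑' x : ℝ, c x * v (t - x) := by
  have hl : 0 ≤ lam := by rcases hlam with h | h <;> rw [h]; norm_num
  have hl1 : lam ≤ 1 := by rcases hlam with h | h <;> rw [h]; norm_num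
  -- the index j
  set j : Pos → ℕ := fun q => (k q + 19) / 20 with hj_def
  have hjk : ∀ q, k q ≤ 20 * j q := fun q => by simp only [hj_def]; omega
  have hjk' : ∀ q, 20 * j q ≤ k q + 19 := fun q => by simp only [hj_def]; omega
  have hkle : ∀ q n, Win lam (τ n) q → k q ≤ n := by
    intro q n h
    by_contra hcon
    exact hk2 q n (not_le.1 hcon) h
  have hs := ss_pos h0
  have hanti := ss_anti h0 h1
  have hτle : ∀ n, τ n ≤ 1 / 8 := fun n => (tau_anti h0 h1 (Nat.zero_le n)).trans hτ0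
  have hsj : ∀ q : Pos, ss τ (j q) ≤ τ (k q) / 2 := by
    intro q
    unfold ss
    have := tau_anti h0 h1 (hjk q)
    linarith
  have hjq : ∀ q : Pos, ss τ (j q) < q := by
    intro q
    have h2 := hsj q
    have h3 := (hk1 q).1
    have h4 := h0 (k q)
    linarith
  have hhalf : ∀ q : Pos, 2 * ss τ (j q) < q := by
    intro q
    have h2 := hsj q
    have h3 := (hk1 q).1
    linarith
  -- weight at q - s_j
  have hshift : ∀ q : Pos, wt lam (q - ss τ (j q)) ≤ 3 * wt lam q := by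
    intro q
    refine wt_shift hl ?_
    have h2 : ((ss τ (j q) : ℝ) : ℝ) ≤ (τ (k q) : ℝ) / 2 := by
      have := (hsj q)
      push_cast at this
      exact this
    have hq : (0 : ℝ) < ((q : ℝ) : ℝ) := by exact_mod_cast q.2
    have h3 := (hk1 q).2
    have h4 := mul_le_mul_of_nonneg_left h2 (mul_nonneg hl hq.le)
    linarith
  -- the locations
  set loc : Pos → ℕ → Pos := fun q m => ⟨q - ss τ (j q) + ss τ m, by
      have h2 := hjq q
      have h3 := hs m
      linarith⟩ with hloc_def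
  have hloc : ∀ q m, (loc q m : ℝ) = q - ss τ (j q) + ss τ m := fun q m => rfl
  -- comparison, `m > j`
  have key_up : ∀ (q : Pos) (i : ℕ), (1 / 64 : ℝ) ^ (i + 2) * (2 ^ (k (loc q (j q + (i + 2)))) * wt lam (loc q (j q + (i + 2))))
      ≤ (1 / 16) ^ (i + 2) * (2 ^ (k q) * wt lam q) := by
    intro q i
    set m := j q + (i + 2) with hm
    have hsm : ss τ m < ss τ (j q) := hanti (by omega)
    have hlt : (loc q m : ℝ) < q := by rw [hloc]; linarith
    have hgt : (q : ℝ) / 2 < loc q m := by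
      rw [hloc]
      have := hhalf q
      have := hs m
      linarith
    have hwin : Win lam (τ (k q + 1)) (loc q m) := by
      refine ⟨?_, ?_⟩
      · have h2 := h1 (k q)
        have h3 := (hk1 q).1
        have h4 := h0 (k q)
        linarith
      · have h2 := (hk1 q).2
        have h3 : ((loc q m : ℝ) : ℝ) ≤ ((q : ℝ) : ℝ) := by exact_mod_cast hlt.le
        have h4 : ((τ (k q + 1) : ℝ) : ℝ) ≤ (τ (k q) : ℝ) := by
          exact_mod_cast tau_anti h0 h1 (Nat.le_succ (k q))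
        have h5 : (0 : ℝ) < ((loc q m : ℝ) : ℝ) := by exact_mod_cast (loc q m).2
        have h6 : (0 : ℝ) < ((τ (k q + 1) : ℝ) : ℝ) := by exact_mod_cast h0 _
        refine lt_of_le_of_lt ?_ h2
        exact mul_le_mul (mul_le_mul_of_nonneg_left h3 hl) h4 h6.le
          (mul_nonneg hl (h5.le.trans h3))
    have hk : k (loc q m) ≤ k q + 1 := hkle _ _ hwin
    have hw : wt lam (loc q m) ≤ 3 * wt lam q := by
      refine le_trans (wt_anti hl (x := q - ss τ (j q)) ?_ ?_) (hshift q)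
      · have := hjq q
        linarith
      · rw [hloc]
        have := hs m
        linarith
    have hpow : (2 : ℝ) ^ (k (loc q m)) ≤ 2 ^ (k q + 1) := pow_le_pow_right₀ (by norm_num) hk
    have hW : (2 : ℝ) ^ (k (loc q m)) * wt lam (loc q m) ≤ 6 * (2 ^ (k q) * wt lam q) := by
      calc (2 : ℝ) ^ (k (loc q m)) * wt lam (loc q m) ≤ 2 ^ (k q + 1) * (3 * wt lam q) :=
            mul_le_mul hpow hw (wt_pos _ _).le (by positivity)
        _ = _ := by rw [pow_succ]; ring
    have h5 := pow_aux1 i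
    have h6 : 0 ≤ (2 : ℝ) ^ (k q) * wt lam q := mul_nonneg (by positivity) (wt_pos _ _).le
    calc (1 / 64 : ℝ) ^ (i + 2) * (2 ^ (k (loc q m)) * wt lam (loc q m))
        ≤ (1 / 64 : ℝ) ^ (i + 2) * (6 * (2 ^ (k q) * wt lam q)) :=
          mul_le_mul_of_nonneg_left hW (by positivity)
      _ = (6 * (1 / 64 : ℝ) ^ (i + 2)) * (2 ^ (k q) * wt lam q) := by ring
      _ ≤ (1 / 16) ^ (i + 2) * (2 ^ (k q) * wt lam q) := mul_le_mul_of_nonneg_right h5 h6
  -- comparison, `m < j`
  have key_down : ∀ (q : Pos) (m i : ℕ), j q = m + (i + 2) →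
      (64 : ℝ) ^ (i + 2) * (2 ^ (k (loc q m)) * wt lam (loc q m))
      ≤ (1 / 16) ^ (i + 2) * (2 ^ (k q) * wt lam q) := by
    intro q m i hji
    have hkq : 20 * (m + (i + 1)) + 1 ≤ k q := by
      have := hjk' q
      omega
    have hsm : ss τ (j q) < ss τ m := hanti (by omega)
    have hgt : (q : ℝ) < loc q m := by rw [hloc]; linarith
    have hgs : ss τ m < loc q m := by
      rw [hloc]
      have := hjq q
      linarith
    have hle : (loc q m : ℝ) ≤ q + ss τ m := by
      rw [hloc]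
      have := hs (j q)
      linarith
    have hsm16 : ss τ m ≤ 1 / 16 := by
      unfold ss
      have := hτle (20 * m)
      linarith
    have hnw := hk2 q (k q - 1) (by omega)
    have hred : (2 : ℝ) ^ (k (loc q m)) * wt lam (loc q m) * 2 ^ (20 * (i + 1)) ≤ 2 ^ (k q) * wt lam q := by
      by_cases hA : (q : ℝ) ≤ τ (k q - 1)
      · have hwin : Win lam (τ (20 * m + 1)) (loc q m) := by
          refine ⟨?_, ?_⟩
          · have h2 := h1 (20 * m)
            have h3 : ss τ m = τ (20 * m) / 2 := rfl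
            have h4 := h0 (20 * m)
            linarith
          · have h2 : ((loc q m : ℝ) : ℝ) ≤ 1 := by
              have h3 : (loc q m : ℝ) ≤ 1 := by
                have := hτle (k q - 1)
                linarith
              exact_mod_cast h3
            have h4 : ((τ (20 * m + 1) : ℝ) : ℝ) ≤ 1 / 8 := by
              have := (hτle (20 * m + 1))
              push_cast at this
              exact this
            have h5 : (0 : ℝ) < ((loc q m : ℝ) : ℝ) := by exact_mod_cast (loc q m).2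
            have h6 : (0 : ℝ) < ((τ (20 * m + 1) : ℝ) : ℝ) := by exact_mod_cast h0 _
            calc lam * ((loc q m : ℝ) : ℝ) * ((τ (20 * m + 1) : ℝ) : ℝ) ≤ (1 * 1) * (1 / 8) := by
                  refine mul_le_mul (mul_le_mul hl1 h2 h5.le (by norm_num)) h4 h6.le (by norm_num)
              _ < 1 := by norm_num
        have hk : k (loc q m) ≤ 20 * m + 1 := hkle _ _ hwin
        have hw : wt lam (loc q m) ≤ wt lam q := wt_anti hl q.2.le hgt.le
        calc (2 : ℝ) ^ (k (loc q m)) * wt lam (loc q m) * 2 ^ (20 * (i + 1))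
            ≤ (2 : ℝ) ^ (20 * m + 1) * wt lam q * 2 ^ (20 * (i + 1)) := by
              refine mul_le_mul_of_nonneg_right ?_ (by positivity)
              exact mul_le_mul (pow_le_pow_right₀ (by norm_num) hk) hw (wt_pos _ _).le (by positivity)
          _ = 2 ^ (20 * (m + (i + 1)) + 1) * wt lam q := by
              rw [show 20 * (m + (i + 1)) + 1 = (20 * m + 1) + 20 * (i + 1) by ring, pow_add]
              ring
          _ ≤ 2 ^ (k q) * wt lam q :=
              mul_le_mul_of_nonneg_right (pow_le_pow_right₀ (by norm_num) hkq) (wt_pos _ _).le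
      · have hA' : τ (k q - 1) < q := not_le.1 hA
        have hB : 1 ≤ lam * ((q : ℝ) : ℝ) * ((τ (k q - 1) : ℝ) : ℝ) := by
          by_contra hcon
          exact hnw ⟨hA', not_le.1 hcon⟩
        have hlam1 : lam = 1 := by
          rcases hlam with h | h
          · rw [h] at hB; norm_num at hB
          · exact h
        rw [hlam1, one_mul] at hB
        have hτr : ((τ (k q - 1) : ℝ) : ℝ) ≤ 1 / 8 := by
          have := (hτle (k q - 1))
          push_cast at this
          exact this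
        have hτpos : (0 : ℝ) < ((τ (k q - 1) : ℝ) : ℝ) := by exact_mod_cast h0 _
        have hqpos : (0 : ℝ) < ((q : ℝ) : ℝ) := by exact_mod_cast q.2
        have hq8 : (8 : ℝ) ≤ ((q : ℝ) : ℝ) := by nlinarith
        have hsm16r : ((ss τ m : ℝ) : ℝ) ≤ 1 / 16 := by
          have := hsm16
          push_cast at this
          exact this
        have hspos : (0 : ℝ) < ((ss τ m : ℝ) : ℝ) := by exact_mod_cast hs m
        have hler : ((loc q m : ℝ) : ℝ) ≤ ((q : ℝ) : ℝ) + ((ss τ m : ℝ) : ℝ) := by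
          have := hle
          push_cast at this
          exact this
        have hlocpos : (0 : ℝ) < ((loc q m : ℝ) : ℝ) := by exact_mod_cast (loc q m).2
        have hwin : Win lam (τ (k q + 1)) (loc q m) := by
          refine ⟨?_, ?_⟩
          · have h2 := tau_anti h0 h1 (Nat.le_succ (k q))
            have h3 := (hk1 q).1
            exact lt_of_le_of_lt h2 (h3.trans hgt)
          · have h2 := (hk1 q).2
            have h4 : ((τ (k q + 1) : ℝ) : ℝ) ≤ (τ (k q) : ℝ) / 4 := by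
              have := (h1 (k q))
              push_cast at this
              exact this
            have h6 : (0 : ℝ) < ((τ (k q) : ℝ) : ℝ) := by exact_mod_cast h0 _
            rw [hlam1, one_mul] at h2 ⊢
            have h7 : ((loc q m : ℝ) : ℝ) ≤ 2 * ((q : ℝ) : ℝ) := by linarith
            have h8 : ((loc q m : ℝ) : ℝ) * ((τ (k q + 1) : ℝ) : ℝ) ≤
                (2 * ((q : ℝ) : ℝ)) * ((τ (k q) : ℝ) / 4) :=
              mul_le_mul h7 h4 (by exact_mod_cast (h0 _).le) (by positivity)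
            nlinarith
        have hk : k (loc q m) ≤ k q + 1 := hkle _ _ hwin
        -- `τ_{k-1} ≤ 2 s_m 4^{-20(i+1)}`
        have hτm : ((τ (k q - 1) : ℝ) : ℝ) ≤ 2 * ((ss τ m : ℝ) : ℝ) * (1 / 4) ^ (20 * (i + 1)) := by
          have h2 : τ (k q - 1) ≤ τ (20 * m + 20 * (i + 1)) := tau_anti h0 h1 (by omega)
          have h3 := tau_add h1 (20 * m) (20 * (i + 1))
          have h4 : τ (20 * m) = 2 * ss τ m := by unfold ss; ring
          rw [h4] at h3
          have := (h2.trans h3)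
          push_cast at this
          exact this
        -- `q s_m ≥ 4^{20(i+1)} / 2`
        have hqs : (4 : ℝ) ^ (20 * (i + 1)) ≤ 2 * (((q : ℝ) : ℝ) * ((ss τ m : ℝ) : ℝ)) := by
          have h2 : (4 : ℝ) ^ (20 * (i + 1)) * (1 / 4) ^ (20 * (i + 1)) = 1 := by
            rw [← mul_pow]; norm_num
          have h3 : (1 : ℝ) ≤ ((q : ℝ) : ℝ) * (2 * ((ss τ m : ℝ) : ℝ) * (1 / 4) ^ (20 * (i + 1))) :=
            hB.trans (mul_le_mul_of_nonneg_left hτm hqpos.le)
          have h4 : (0 : ℝ) < 4 ^ (20 * (i + 1)) := by positivity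
          calc (4 : ℝ) ^ (20 * (i + 1)) = 4 ^ (20 * (i + 1)) * 1 := by ring
            _ ≤ 4 ^ (20 * (i + 1)) * (((q : ℝ) : ℝ) * (2 * ((ss τ m : ℝ) : ℝ) * (1 / 4) ^ (20 * (i + 1)))) :=
              mul_le_mul_of_nonneg_left h3 h4.le
            _ = (4 ^ (20 * (i + 1)) * (1 / 4) ^ (20 * (i + 1))) * (2 * (((q : ℝ) : ℝ) * ((ss τ m : ℝ) : ℝ))) := by ring
            _ = _ := by rw [h2, one_mul]
        have hqs0 : (0 : ℝ) < ((q : ℝ) : ℝ) * ((ss τ m : ℝ) : ℝ) := mul_pos hqpos hspos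
        -- weight bound
        have hsj4 : ss τ (j q) ≤ ss τ m / 2 := by
          unfold ss
          have h2 : τ (20 * j q) ≤ τ (20 * m + 1) := tau_anti h0 h1 (by omega)
          have h3 := h1 (20 * m)
          have h4 := h0 (20 * m)
          linarith
        have hlow : ((q : ℝ) : ℝ) + ((ss τ m : ℝ) : ℝ) / 2 ≤ ((loc q m : ℝ) : ℝ) := by
          have h2 : (q : ℝ) + ss τ m / 2 ≤ loc q m := by rw [hloc]; linarith
          have := h2
          push_cast at this
          exact this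
        have hw : wt lam (loc q m) ≤ Real.exp (-(((q : ℝ) : ℝ) * ((ss τ m : ℝ) : ℝ))) * wt lam q := by
          unfold wt
          rw [← Real.exp_add, hlam1]
          apply Real.exp_le_exp.2
          nlinarith
        have hexp : Real.exp (-(((q : ℝ) : ℝ) * ((ss τ m : ℝ) : ℝ))) * 4 ^ (20 * (i + 1)) ≤ 2 := by
          have h2 : ((q : ℝ) : ℝ) * ((ss τ m : ℝ) : ℝ) ≤ Real.exp (((q : ℝ) : ℝ) * ((ss τ m : ℝ) : ℝ)) := by
            have := Real.add_one_le_exp (((q : ℝ) : ℝ) * ((ss τ m : ℝ) : ℝ))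
            linarith
          rw [Real.exp_neg, inv_mul_le_iff₀ (Real.exp_pos _)]
          linarith
        have h44 : (4 : ℝ) ^ (20 * (i + 1)) = 2 ^ (20 * (i + 1)) * 2 ^ (20 * (i + 1)) := by
          rw [← mul_pow]; norm_num
        have h4le : (4 : ℝ) ≤ 2 ^ (20 * (i + 1)) := by
          calc (4 : ℝ) = 2 ^ 2 := by norm_num
            _ ≤ 2 ^ (20 * (i + 1)) := pow_le_pow_right₀ (by norm_num) (by omega)
        set P : ℝ := 2 ^ (20 * (i + 1)) with hP
        set E : ℝ := Real.exp (-(((q : ℝ) : ℝ) * ((ss τ m : ℝ) : ℝ))) with hE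
        have hE0 : 0 < E := Real.exp_pos _
        have hPpos : 0 < P := by positivity
        have hEP : 2 * (E * P) ≤ 1 := by
          rw [h44] at hexp
          have h5 : E * P * 4 ≤ E * P * P := mul_le_mul_of_nonneg_left h4le (by positivity)
          nlinarith
        calc (2 : ℝ) ^ (k (loc q m)) * wt lam (loc q m) * P
            ≤ 2 ^ (k q + 1) * (E * wt lam q) * P := by
              refine mul_le_mul_of_nonneg_right ?_ hPpos.le
              exact mul_le_mul (pow_le_pow_right₀ (by norm_num) hk) hw (wt_pos _ _).le (by positivity)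
          _ = (2 * (E * P)) * (2 ^ (k q) * wt lam q) := by rw [pow_succ]; ring
          _ ≤ 1 * (2 ^ (k q) * wt lam q) :=
              mul_le_mul_of_nonneg_right hEP (mul_nonneg (by positivity) (wt_pos _ _).le)
          _ = _ := one_mul _
    have h5 := pow_aux2 i
    have hX : 0 ≤ (2 : ℝ) ^ (k (loc q m)) * wt lam (loc q m) :=
      mul_nonneg (by positivity) (wt_pos _ _).le
    calc (64 : ℝ) ^ (i + 2) * (2 ^ (k (loc q m)) * wt lam (loc q m))
        ≤ ((1 / 16) ^ (i + 2) * 2 ^ (20 * (i + 1))) * (2 ^ (k (loc q m)) * wt lam (loc q m)) :=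
          mul_le_mul_of_nonneg_right h5 hX
      _ = (1 / 16) ^ (i + 2) * (2 ^ (k (loc q m)) * wt lam (loc q m) * 2 ^ (20 * (i + 1))) := by ring
      _ ≤ _ := mul_le_mul_of_nonneg_left hred (by positivity)
  have key : ∀ (q : Pos) (m : ℕ), (if m % 2 = j q % 2 ∧ m ≠ j q then ((1 : ℝ) / 64) ^ m * ((1 / 64) ^ (j q))⁻¹ else 0) *
      (2 ^ (k (loc q m)) * wt lam (loc q m)) ≤
      (if m = j q then (0 : ℝ) else (1 / 16) ^ ((m - j q) + (j q - m))) * (2 ^ (k q) * wt lam q) := by
    intro q m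
    have hW0 : 0 ≤ (2 : ℝ) ^ (k q) * wt lam q := mul_nonneg (by positivity) (wt_pos _ _).le
    by_cases hm : m % 2 = j q % 2 ∧ m ≠ j q
    · rw [if_pos hm, if_neg hm.2]
      rcases lt_or_gt_of_ne hm.2 with hlt | hgt
      · obtain ⟨i, hi⟩ : ∃ i, j q = m + (i + 2) := ⟨j q - m - 2, by omega⟩
        have h2 := key_down q m i hi
        have h3 : ((1 : ℝ) / 64) ^ m * ((1 / 64) ^ (j q))⁻¹ = 64 ^ (i + 2) := by
          rw [hi, pow_add ((1 : ℝ) / 64) m, mul_inv, ← mul_assoc, mul_inv_cancel₀ (by positivity), one_mul,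
            ← inv_pow]
          norm_num
        have h4 : m - j q + (j q - m) = i + 2 := by omega
        rw [h3, h4]
        exact h2
      · obtain ⟨i, hi⟩ : ∃ i, m = j q + (i + 2) := ⟨m - j q - 2, by omega⟩
        have h2 := key_up q i
        rw [← hi] at h2
        have h3 : ((1 : ℝ) / 64) ^ m * ((1 / 64) ^ (j q))⁻¹ = (1 / 64) ^ (i + 2) := by
          rw [hi, pow_add ((1 : ℝ) / 64) (j q), mul_comm, ← mul_assoc, inv_mul_cancel₀ (by positivity), one_mul]
        have h4 : m - j q + (j q - m) = i + 2 := by omega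
        rw [h3, h4]
        exact h2
    · rw [if_neg hm, zero_mul]
      refine mul_nonneg ?_ hW0
      split_ifs
      · exact le_rfl
      · positivity
  have hgeo : ∀ q : Pos, Summable fun m => (if m = j q then (0 : ℝ) else (1 / 16) ^ ((m - j q) + (j q - m))) := by
    intro q
    refine summable_of_sum_range_le (c := 2 / 15) (fun m => ?_) (fun n => geo_range (j q) n)
    split_ifs
    · exact le_rfl
    · positivity
  have hgeo' : ∀ q : Pos, ∑' m, (if m = j q then (0 : ℝ) else (1 / 16) ^ ((m - j q) + (j q - m))) ≤ 2 / 15 := by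
    intro q
    refine (hgeo q).tsum_le_of_sum_range_le (fun n => geo_range (j q) n)
  have hcore := core (wt lam) (wt_pos lam) (fun x y hx hy => wt_sub hl x y hx hy) (ss τ) hs
    hanti.injective j hjq (fun q => 2 ^ (k q) * wt lam q)
    (fun q => mul_pos (by positivity) (wt_pos _ _)) (1 / 64) (by norm_num)
    (by
      refine Summable.of_nonneg_of_le (fun m => mul_nonneg (by positivity) (wt_pos _ _).le)
        (fun m => ?_) (summable_geometric_of_lt_one (by norm_num : (0 : ℝ) ≤ 1 / 64) (by norm_num))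
      exact mul_le_of_le_one_right (by positivity) (wt_le_one hl _))
    192
    (by
      intro q
      have h2 : (((1 : ℝ) / 64) ^ (j q))⁻¹ ≤ 2 ^ (k q + 6) := by
        rw [one_div, inv_pow, inv_inv, show (64 : ℝ) = 2 ^ 6 by norm_num, ← pow_mul]
        refine pow_le_pow_right₀ (by norm_num) ?_
        have := hjk' q
        omega
      have h3 := hshift q
      have h4 := wt_pos lam q
      calc (((1 : ℝ) / 64) ^ (j q))⁻¹ * wt lam (q - ss τ (j q))
          ≤ 2 ^ (k q + 6) * (3 * wt lam q) :=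
            mul_le_mul h2 h3 (wt_pos _ _).le (by positivity)
        _ = 192 * (2 ^ k q * wt lam q) := by rw [pow_add]; ring)
    loc hloc
    (fun q m => if m % 2 = j q % 2 ∧ m ≠ j q then (1 / 64) ^ m * ((1 / 64) ^ (j q))⁻¹ else 0)
    (fun q m => rfl)
    (θ := 2 / 15) (by norm_num)
    (by
      intro q
      refine Summable.of_nonneg_of_le (fun m => ?_) (fun m => key q m) ((hgeo q).mul_right _)
      refine mul_nonneg ?_ (mul_nonneg (by positivity) (wt_pos _ _).le)
      split_ifs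
      · positivity
      · exact le_rfl)
    (by
      intro q
      have hnn : ∀ m, 0 ≤ (if m % 2 = j q % 2 ∧ m ≠ j q then ((1 : ℝ) / 64) ^ m * ((1 / 64) ^ (j q))⁻¹ else 0) *
          (2 ^ (k (loc q m)) * wt lam (loc q m)) := by
        intro m
        refine mul_nonneg ?_ (mul_nonneg (by positivity) (wt_pos _ _).le)
        split_ifs
        · positivity
        · exact le_rfl
      have hs1 := Summable.of_nonneg_of_le hnn (fun m => key q m) ((hgeo q).mul_right _)
      refine (hs1.tsum_le_tsum (fun m => key q m) ((hgeo q).mul_right _)).trans ?_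
      rw [tsum_mul_right]
      exact mul_le_mul_of_nonneg_right (hgeo' q) (mul_nonneg (by positivity) (wt_pos _ _).le))
    a ha
  obtain ⟨a', hb, hu, hat⟩ := hcore
  have hB0 : ∀ ε : ℕ, ∀ x ≤ (0 : ℝ), BB (ss τ) (1 / 64) ε x = 0 := by
    intro ε x hx
    refine BB_eq_zero _ _ ?_
    rintro ⟨m, hm⟩
    have := hs m
    linarith
  have hU0 : ∀ ε : ℕ, ∀ x ≤ (0 : ℝ), UU (ss τ) (1 / 64) j a' ε x = 0 :=
    fun ε x hx => UU_eq_zero _ hjq a' ε hx
  have hBr : ∀ ε : ℕ, ∀ x, BB (ss τ) (1 / 64) ε x ≠ 0 → x ∈ Set.range (ss τ) := by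
    intro ε x hx
    by_contra hcon
    exact hx (BB_eq_zero _ _ hcon)
  exact ⟨BB (ss τ) (1 / 64) 0, BB (ss τ) (1 / 64) 1, UU (ss τ) (1 / 64) j a' 0,
    UU (ss τ) (1 / 64) j a' 1, hBr 0, hBr 1, hB0 0, hB0 1, hU0 0, hU0 1, hb 0, hb 1, hu 0, hu 1, hat⟩

/-- **Two products suffice**, with first factors supported in `H`. -/
theorem two_products (hlam : lam = 0 ∨ lam = 1) (H : Set ℝ)
    (hH : ∀ ε : ℝ, 0 < ε → ∃ s ∈ H, 0 < s ∧ s ≤ ε) (a : Pos → ℂ)
    (ha : Summable fun q : Pos => ‖a q‖ * wt lam q) :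
    ∃ b c u v : ℝ → ℂ,
      (∀ x, b x ≠ 0 → x ∈ H) ∧ (∀ x, c x ≠ 0 → x ∈ H) ∧
      (∀ x ≤ 0, b x = 0) ∧ (∀ x ≤ 0, c x = 0) ∧ (∀ x ≤ 0, u x = 0) ∧ (∀ x ≤ 0, v x = 0) ∧
      (Summable fun x : ℝ => ‖b x‖ * wt lam x) ∧ (Summable fun x : ℝ => ‖c x‖ * wt lam x) ∧
      (Summable fun x : ℝ => ‖u x‖ * wt lam x) ∧ (Summable fun x : ℝ => ‖v x‖ * wt lam x) ∧
      ∀ t : Pos, a t = ∑' x : ℝ, b x * u (t - x) + ∑' x : ℝ, c x * v (t - x) := by
  classical
  have hl : 0 ≤ lam := by rcases hlam with h | h <;> rw [h]; norm_num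
  have hl1 : lam ≤ 1 := by rcases hlam with h | h <;> rw [h]; norm_num
  obtain ⟨τ, h0, hτH, hτ0, h1, hT⟩ := exists_tau hl hl1 ha H hH
  set k : Pos → ℕ := fun q => Nat.find (exists_level hl hl1 h0 h1 q) with hk
  have hk1 : ∀ q, Win lam (τ (k q)) q := fun q => Nat.find_spec (exists_level hl hl1 h0 h1 q)
  have hk2 : ∀ q, ∀ m < k q, ¬ Win lam (τ m) q := fun q m hm =>
    Nat.find_min (exists_level hl hl1 h0 h1 q) hm
  have hsum := summable_level ha (fun q => mul_nonneg (norm_nonneg _) (wt_pos _ _).le) hT k hk2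
  obtain ⟨b, c, u, v, hb, hc, hrest⟩ := concrete hlam h0 hτ0 h1 k hk1 hk2 a (hsum.congr fun q => by ring)
  have hr : ∀ x, x ∈ Set.range (ss τ) → x ∈ H := by
    rintro x ⟨m, rfl⟩
    exact hτH _
  exact ⟨b, c, u, v, fun x hx => hr x (hb x hx), fun x hx => hr x (hc x hx), hrest⟩

end Concrete

end Pool.Agent.Y320.FR.G
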