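import Pool.Agent.Y320.FR.J859
import Pool.Agent.Y320.FR.GD

set_option autoImplicit false

open Set Filter Topology

namespace Pool.Agent.Y320.FR

/-- The weighted space `ℓ¹(S, ω)` over a set `S` of real numbers: all functions `f : S → ℂ` with
`∑_{t ∈ S} |f t| ω(t) < ∞`. -/
def ellOne (S : Set ℝ) (ω : ℝ → ℝ) : Set (S → ℂ) :=
  {f | Summable fun t : S => ‖f t‖ * ω t}

/-- Convolution of functions on `S`: `(f * g)(t)` is the sum of `f s * g u` over all pairs
`s, u ∈ S` with `s + u = t` (for `S ⊆ (0, T]` this is the truncated convolution). -/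
noncomputable def conv (S : Set ℝ) (f g : S → ℂ) : S → ℂ := fun t =>
  ∑' p : {p : S × S // (p.1 : ℝ) + (p.2 : ℝ) = (t : ℝ)}, f p.1.1 * g p.1.2

/-- The algebra `ℓ¹(S, ω)` factors: every element is a product of two elements. -/
def Factors (S : Set ℝ) (ω : ℝ → ℝ) : Prop :=
  ∀ a ∈ ellOne S ω, ∃ b ∈ ellOne S ω, ∃ c ∈ ellOne S ω, a = conv S b c

/-- Every element of `ℓ¹(S, ω)` is a sum of two products of its elements. -/
def TwoProducts (S : Set ℝ) (ω : ℝ → ℝ) : Prop :=
  ∀ a ∈ ellOne S ω, ∃ b ∈ ellOne S ω, ∃ u ∈ ellOne S ω, ∃ c ∈ ellOne S ω, ∃ v ∈ ellOne S ω,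
    a = conv S b u + conv S c v

/-- `A²`: the linear span of the products of two elements of `A = ℓ¹(S, ω)`. -/
def square (S : Set ℝ) (ω : ℝ → ℝ) : Set (S → ℂ) :=
  (Submodule.span ℂ {h : S → ℂ | ∃ f ∈ ellOne S ω, ∃ g ∈ ellOne S ω, h = conv S f g} :
    Set (S → ℂ))

/-! ### No factorisation -/

open Classical in
/-- rescaled truncation, extended by zero -/
noncomputable def tr (S : Set ℝ) (δ : ℝ) (b : S → ℂ) (q : ℝ) : ℂ :=
  if h : δ * q ∈ S ∧ q ≤ 1 then b ⟨δ * q, h.1⟩ else 0

theorem tr_summable (S : Set ℝ) (ω : ℝ → ℝ) (δ κ : ℝ) (hδ : 0 < δ) (hκ : 0 < κ)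
    (hωS : ∀ t ∈ S, 0 ≤ ω t) (hω : ∀ t ∈ S, t ≤ δ → κ ≤ ω t) (b : S → ℂ) (hb : b ∈ ellOne S ω) :
    Summable fun q => ‖tr S δ b q‖ := by
  classical
  have e : Function.Injective (fun t : S => (t : ℝ) / δ) := by
    intro x y h
    simp only at h
    rw [div_left_inj' hδ.ne'] at h
    exact Subtype.ext h
  have hmul : ∀ t : ℝ, δ * (t / δ) = t := fun t => by field_simp
  have h1 : Summable fun t : S => ‖tr S δ b ((t : ℝ) / δ)‖ := by
    refine Summable.of_nonneg_of_le (fun _ => norm_nonneg _) (fun t => ?_) (hb.mul_left (1 / κ))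
    by_cases ht : (t : ℝ) / δ ≤ 1
    · have hm : δ * ((t : ℝ) / δ) ∈ S := by rw [hmul]; exact t.2
      have h2 : tr S δ b ((t : ℝ) / δ) = b t := by
        unfold tr
        rw [dif_pos ⟨hm, ht⟩]
        congr 1
        exact Subtype.ext (hmul _)
      rw [h2]
      have h3 := hω t t.2 ((div_le_one hδ).1 ht)
      have h4 : ‖b t‖ = 1 / κ * (‖b t‖ * κ) := by field_simp
      calc ‖b t‖ = 1 / κ * (‖b t‖ * κ) := h4
        _ ≤ 1 / κ * (‖b t‖ * ω t) := by
          apply mul_le_mul_of_nonneg_left _ (by positivity)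
          exact mul_le_mul_of_nonneg_left h3 (norm_nonneg _)
    · have h2 : tr S δ b ((t : ℝ) / δ) = 0 := by
        unfold tr
        rw [dif_neg (fun h => ht h.2)]
      rw [h2, norm_zero]
      have := hωS t t.2
      positivity
  refine (e.summable_iff (f := fun q => ‖tr S δ b q‖) ?_).1 h1
  intro q hq
  have hq' : δ * q ∉ S := fun h => hq ⟨⟨δ * q, h⟩, by simp only; field_simp⟩
  unfold tr
  rw [dif_neg (fun h => hq' h.1), norm_zero]

theorem tr_conv (S : Set ℝ) (δ : ℝ) (hδ : 0 < δ) (hS : ∀ t ∈ S, 0 < t) (b c : S → ℂ) (q : ℝ)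
    (hq : δ * q ∈ S) (hq1 : q ≤ 1) :
    ∑' r, tr S δ b r * tr S δ c (q - r) = conv S b c ⟨δ * q, hq⟩ := by
  classical
  have hmul : ∀ t : ℝ, δ * (t / δ) = t := fun t => by field_simp
  unfold conv
  set φ : {p : S × S // (p.1 : ℝ) + (p.2 : ℝ) = ((⟨δ * q, hq⟩ : S) : ℝ)} → ℝ :=
    fun p => (p.1.1 : ℝ) / δ with hφ
  have hinj : Function.Injective φ := by
    rintro ⟨⟨x, y⟩, h⟩ ⟨⟨x', y'⟩, h'⟩ he
    simp only [hφ] at he h h'
    rw [div_left_inj' hδ.ne'] at he
    have hx : x = x' := Subtype.ext he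
    subst hx
    have hy : y = y' := by
      apply Subtype.ext
      linarith
    subst hy
    rfl
  rw [← hinj.tsum_eq]
  · apply tsum_congr
    rintro ⟨⟨x, y⟩, h⟩
    simp only [hφ] at h ⊢
    have hx0 := hS x x.2
    have hy0 := hS y y.2
    have hy : q - (x : ℝ) / δ = (y : ℝ) / δ := by
      field_simp
      linarith
    have key : ∀ (f : S → ℂ) (z : S), (z : ℝ) ≤ δ → tr S δ f ((z : ℝ) / δ) = f z := by
      intro f z hz
      have hm : δ * ((z : ℝ) / δ) ∈ S := by rw [hmul]; exact z.2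
      unfold tr
      rw [dif_pos ⟨hm, (div_le_one hδ).2 hz⟩]
      congr 1
      exact Subtype.ext (hmul _)
    have hq2 : δ * q ≤ δ := by nlinarith
    rw [hy, key b x (by linarith), key c y (by linarith)]
  · intro r hr
    rw [Function.mem_support] at hr
    have h1 : δ * r ∈ S := by
      by_contra h
      apply hr
      unfold tr
      rw [dif_neg (fun h' => h h'.1), zero_mul]
    have h2 : δ * (q - r) ∈ S := by
      by_contra h
      apply hr
      have : tr S δ c (q - r) = 0 := by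
        unfold tr
        rw [dif_neg (fun h' => h h'.1)]
      rw [this, mul_zero]
    refine ⟨⟨(⟨δ * r, h1⟩, ⟨δ * (q - r), h2⟩), by simp only; ring⟩, ?_⟩
    simp only [hφ]
    field_simp

/-- **No algebra `ℓ¹(S, ω)` of a (truncated) semigroup of positive reals factors.** -/
theorem not_factors (S : Set ℝ) (ω : ℝ → ℝ) (δ κ B : ℝ) (hne : S.Nonempty)
    (hS : ∀ t ∈ S, 0 < t) (hδ : 0 < δ) (hκ : 0 < κ)
    (hadd : ∀ x ∈ S, ∀ y ∈ S, x + y ≤ δ → x + y ∈ S)
    (hω0 : ∀ t ∈ S, 0 ≤ ω t) (hω : ∀ t ∈ S, t ≤ δ → κ ≤ ω t ∧ ω t ≤ B) : ¬ Factors S ω := by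
  classical
  intro H
  by_cases hsm : ∀ ε : ℝ, 0 < ε → ∃ s ∈ S, s ≤ ε
  · obtain ⟨f, hf1, hfs, hno⟩ := J859.no_factor {x | δ * x ∈ S} (by
      intro ε hε
      obtain ⟨s, hs, hsε⟩ := hsm (δ * ε) (by positivity)
      refine ⟨s / δ, ?_, div_pos (hS s hs) hδ, ?_⟩
      · change δ * (s / δ) ∈ S
        have : δ * (s / δ) = s := by field_simp
        rw [this]; exact hs
      · rw [div_le_iff₀ hδ]; linarith [mul_comm δ ε])
    have hmul : ∀ t : ℝ, δ * (t / δ) = t := fun t => by field_simp
    obtain ⟨b, hb, c, hc, habc⟩ := H (fun t => f ((t : ℝ) / δ)) (by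
      change Summable fun t : S => ‖f ((t : ℝ) / δ)‖ * ω t
      have einj : Function.Injective (fun t : S => (t : ℝ) / δ) := by
        intro x y h
        simp only at h
        rw [div_left_inj' hδ.ne'] at h
        exact Subtype.ext h
      have h1 : Summable fun t : S => ‖f ((t : ℝ) / δ)‖ * |B| :=
        (hfs.comp_injective einj).mul_right |B|
      refine Summable.of_nonneg_of_le (fun t => mul_nonneg (norm_nonneg _) (hω0 t t.2))
        (fun t => ?_) h1
      by_cases h0 : f ((t : ℝ) / δ) = 0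
      · rw [h0, norm_zero, zero_mul, zero_mul]
      · have h2 := (hf1 _ h0).2.2
        have h3 := (hω t t.2 ((div_le_one hδ).1 h2)).2
        exact mul_le_mul_of_nonneg_left (h3.trans (le_abs_self B)) (norm_nonneg _))
    refine hno (tr S δ b) (tr S δ c) ?_ ?_ (tr_summable S ω δ κ hδ hκ hω0 (fun t ht h => (hω t ht h).1) b hb)
      (tr_summable S ω δ κ hδ hκ hω0 (fun t ht h => (hω t ht h).1) c hc) ?_
    · intro q hq
      unfold tr
      rw [dif_neg]
      rintro ⟨h, -⟩
      have := hS _ h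
      nlinarith
    · intro q hq
      unfold tr
      rw [dif_neg]
      rintro ⟨h, -⟩
      have := hS _ h
      nlinarith
    · intro q hq
      by_cases hqS : δ * q ∈ S
      · rw [tr_conv S δ hδ hS b c q hqS hq]
        have h2 := congrFun habc ⟨δ * q, hqS⟩
        rw [← h2]
        simp only
        congr 1
        field_simp
      · have hf0 : f q = 0 := by
          by_contra h0
          exact hqS (hf1 q h0).1
        rw [hf0]
        symm
        convert tsum_zero with r
        by_contra hr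
        have h1 : δ * r ∈ S := by
          by_contra h
          apply hr
          unfold tr
          rw [dif_neg (fun h' => h h'.1), zero_mul]
        have h2 : δ * (q - r) ∈ S := by
          by_contra h
          apply hr
          have : tr S δ c (q - r) = 0 := by
            unfold tr
            rw [dif_neg (fun h' => h h'.1)]
          rw [this, mul_zero]
        have h3 : δ * r + δ * (q - r) = δ * q := by ring
        have h4 := hadd _ h1 _ h2 (by rw [h3]; nlinarith)
        rw [h3] at h4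
        exact hqS h4
  · push Not at hsm
    obtain ⟨ε, hε, hlow⟩ := hsm
    -- an element of `S` which is not a sum of two elements
    have hbdd : BddBelow S := ⟨ε, fun t ht => (hlow t ht).le⟩
    have hinf : ε ≤ sInf S := le_csInf hne fun t ht => (hlow t ht).le
    obtain ⟨s, hs, hs2⟩ := exists_lt_of_csInf_lt hne (show sInf S < 2 * sInf S by linarith)
    set a : S → ℂ := fun t => if (t : ℝ) = s then 1 else 0 with ha
    obtain ⟨b, hb, c, hc, habc⟩ := H a (by
      change Summable fun t : S => ‖a t‖ * ω t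
      refine summable_of_ne_finset_zero (s := {⟨s, hs⟩}) ?_
      intro t ht
      have : (t : ℝ) ≠ s := fun h => ht (by
        rw [Finset.mem_singleton]; exact Subtype.ext h)
      simp only [ha, if_neg this, norm_zero, zero_mul])
    have h1 := congrFun habc ⟨s, hs⟩
    have h2 : conv S b c ⟨s, hs⟩ = 0 := by
      unfold conv
      haveI : IsEmpty {p : S × S // (p.1 : ℝ) + (p.2 : ℝ) = ((⟨s, hs⟩ : S) : ℝ)} := by
        refine ⟨?_⟩
        rintro ⟨⟨x, y⟩, h⟩
        simp only at h
        have hx := csInf_le hbdd x.2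
        have hy := csInf_le hbdd y.2
        linarith
      exact tsum_empty
    rw [h2] at h1
    simp [ha] at h1

end Pool.Agent.Y320.FR
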