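import Pool.Agent.Y320.FR.Fin

set_option autoImplicit false

open Set Filter Topology

namespace Pool.Agent.Y320.FR

/-- The weight `exp (c t - l t²)`; `c = l = 0` is the weight `1`, `c = 0`, `l = 1` is
`exp (-t²)`. -/
noncomputable def wgt (c l : ℝ) (t : ℝ) : ℝ := Real.exp (c * t - l * t ^ 2)

lemma wgt_pos (c l t : ℝ) : 0 < wgt c l t := Real.exp_pos _

lemma wgt_sub {c l : ℝ} (hl : 0 ≤ l) (x y : ℝ) (hx : 0 < x) (hy : 0 < y) :
    wgt c l (x + y) ≤ wgt c l x * wgt c l y := by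
  unfold wgt
  rw [← Real.exp_add]
  apply Real.exp_le_exp.2
  nlinarith [mul_nonneg hl (mul_pos hx hy).le]

theorem two_products_gen (c l : ℝ) (hl : 0 ≤ l) (H : Set ℝ)
    (hH : ∀ ε : ℝ, 0 < ε → ∃ s ∈ H, 0 < s ∧ s ≤ ε) (a : G.Pos → ℂ)
    (ha : Summable fun q : G.Pos => ‖a q‖ * wgt c l q) :
    ∃ b b' u u' : ℝ → ℂ,
      (∀ x, b x ≠ 0 → x ∈ H) ∧ (∀ x, b' x ≠ 0 → x ∈ H) ∧
      (∀ x ≤ 0, b x = 0) ∧ (∀ x ≤ 0, b' x = 0) ∧ (∀ x ≤ 0, u x = 0) ∧ (∀ x ≤ 0, u' x = 0) ∧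
      (Summable fun x : ℝ => ‖b x‖ * wgt c l x) ∧ (Summable fun x : ℝ => ‖b' x‖ * wgt c l x) ∧
      (Summable fun x : ℝ => ‖u x‖ * wgt c l x) ∧ (Summable fun x : ℝ => ‖u' x‖ * wgt c l x) ∧
      ∀ t : G.Pos, a t = ∑' x : ℝ, b x * u (t - x) + ∑' x : ℝ, b' x * u' (t - x) := by
  obtain ⟨k, μ, hk, hμ, hkμ⟩ : ∃ k μ : ℝ, (k = 0 ∨ k = 1) ∧ 0 < μ ∧ l = k * μ ^ 2 := by
    rcases hl.eq_or_lt with h | h
    · exact ⟨0, 1, Or.inl rfl, one_pos, by rw [← h]; ring⟩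
    · exact ⟨1, Real.sqrt l, Or.inr rfl, Real.sqrt_pos.2 h, by rw [Real.sq_sqrt hl]; ring⟩
  let e : G.Pos ≃ G.Pos :=
    { toFun := fun t => ⟨μ * (t : ℝ), mul_pos hμ t.2⟩
      invFun := fun t => ⟨(t : ℝ) / μ, div_pos t.2 hμ⟩
      left_inv := fun t => by apply Subtype.ext; simp only; field_simp
      right_inv := fun t => by apply Subtype.ext; simp only; field_simp }
  have hw : ∀ x : ℝ, Real.exp (c * x) * G.wt k (μ * x) = wgt c l x := by
    intro x
    unfold G.wt wgt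
    rw [← Real.exp_add, hkμ]
    congr 1
    ring
  have hnexp : ∀ x : ℝ, ‖(Real.exp x : ℂ)‖ = Real.exp x := fun x => by
    rw [Complex.norm_real, Real.norm_of_nonneg (Real.exp_pos _).le]
  obtain ⟨B, B', U, U', hB, hB', hB0, hB'0, hU0, hU'0, hBs, hB's, hUs, hU's, hid⟩ :=
    G.two_products (lam := k) hk {y | y / μ ∈ H} (by
      intro ε hε
      obtain ⟨s, hs, hs0, hs1⟩ := hH (ε / μ) (div_pos hε hμ)
      refine ⟨μ * s, ?_, mul_pos hμ hs0, ?_⟩
      · change μ * s / μ ∈ H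
        rwa [mul_div_cancel_left₀ _ hμ.ne']
      · rw [le_div_iff₀ hμ] at hs1
        linarith [mul_comm s μ])
      (fun q => a (e.symm q) * (Real.exp (c * ((e.symm q : G.Pos) : ℝ)) : ℂ)) (by
      refine (e.summable_iff (f := fun q : G.Pos =>
        ‖a (e.symm q) * (Real.exp (c * ((e.symm q : G.Pos) : ℝ)) : ℂ)‖ * G.wt k q)).1 ?_
      refine ha.congr fun t => ?_
      simp only [Function.comp_apply, Equiv.symm_apply_apply]
      rw [norm_mul, hnexp, mul_assoc]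
      congr 1
      exact (hw t).symm)
  have hmulI : ∀ F : ℝ → ℂ, (Summable fun x : ℝ => ‖F x‖ * G.wt k x) →
      Summable fun x : ℝ => ‖F (μ * x) * (Real.exp (-(c * x)) : ℂ)‖ * wgt c l x := by
    intro F hF
    have h1 := ((Equiv.mulLeft₀ μ hμ.ne').summable_iff (f := fun x : ℝ => ‖F x‖ * G.wt k x)).2 hF
    refine h1.congr fun x => ?_
    simp only [Function.comp_apply, Equiv.mulLeft₀_apply]
    rw [norm_mul, hnexp, ← hw x]
    have h2 : Real.exp (-(c * x)) * Real.exp (c * x) = 1 := by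
      rw [← Real.exp_add]; simp
    calc ‖F (μ * x)‖ * G.wt k (μ * x)
        = ‖F (μ * x)‖ * (Real.exp (-(c * x)) * Real.exp (c * x)) * G.wt k (μ * x) := by
          rw [h2, mul_one]
      _ = _ := by ring
  refine ⟨fun x => B (μ * x) * (Real.exp (-(c * x)) : ℂ), fun x => B' (μ * x) * (Real.exp (-(c * x)) : ℂ),
    fun x => U (μ * x) * (Real.exp (-(c * x)) : ℂ), fun x => U' (μ * x) * (Real.exp (-(c * x)) : ℂ),
    ?_, ?_, ?_, ?_, ?_, ?_, hmulI B hBs, hmulI B' hB's, hmulI U hUs, hmulI U' hU's, ?_⟩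
  · intro x hx
    have h1 := hB _ (left_ne_zero_of_mul hx)
    change μ * x / μ ∈ H at h1
    rwa [mul_div_cancel_left₀ _ hμ.ne'] at h1
  · intro x hx
    have h1 := hB' _ (left_ne_zero_of_mul hx)
    change μ * x / μ ∈ H at h1
    rwa [mul_div_cancel_left₀ _ hμ.ne'] at h1
  · intro x hx
    simp only
    rw [hB0 _ (mul_nonpos_of_nonneg_of_nonpos hμ.le hx), zero_mul]
  · intro x hx
    simp only
    rw [hB'0 _ (mul_nonpos_of_nonneg_of_nonpos hμ.le hx), zero_mul]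
  · intro x hx
    simp only
    rw [hU0 _ (mul_nonpos_of_nonneg_of_nonpos hμ.le hx), zero_mul]
  · intro x hx
    simp only
    rw [hU'0 _ (mul_nonpos_of_nonneg_of_nonpos hμ.le hx), zero_mul]
  · intro t
    have h1 := hid (e t)
    simp only [Equiv.symm_apply_apply] at h1
    have hexp : (Real.exp (c * (t : ℝ)) : ℂ) * (Real.exp (-(c * (t : ℝ))) : ℂ) = 1 := by
      rw [← Complex.ofReal_mul, ← Real.exp_add]; simp
    have key : ∀ F K : ℝ → ℂ,
        ∑' x : ℝ, (F (μ * x) * (Real.exp (-(c * x)) : ℂ)) *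
          (K (μ * ((t : ℝ) - x)) * (Real.exp (-(c * ((t : ℝ) - x))) : ℂ)) =
        (∑' x : ℝ, F x * K (((e t : G.Pos) : ℝ) - x)) * (Real.exp (-(c * (t : ℝ))) : ℂ) := by
      intro F K
      rw [← (Equiv.mulLeft₀ μ hμ.ne').tsum_eq (fun x : ℝ => F x * K (((e t : G.Pos) : ℝ) - x)),
        ← tsum_mul_right]
      refine tsum_congr fun x => ?_
      simp only [Equiv.mulLeft₀_apply]
      have h2 : ((e t : G.Pos) : ℝ) - μ * x = μ * ((t : ℝ) - x) := by
        change μ * (t : ℝ) - μ * x = _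
        ring
      have h3 : (Real.exp (-(c * x)) : ℂ) * (Real.exp (-(c * ((t : ℝ) - x))) : ℂ)
          = (Real.exp (-(c * (t : ℝ))) : ℂ) := by
        rw [← Complex.ofReal_mul, ← Real.exp_add]
        congr 2
        ring
      rw [h2]
      calc _ = F (μ * x) * K (μ * ((t : ℝ) - x)) *
            ((Real.exp (-(c * x)) : ℂ) * (Real.exp (-(c * ((t : ℝ) - x))) : ℂ)) := by ring
        _ = _ := by rw [h3]
    rw [key B U, key B' U', ← add_mul, ← h1, mul_assoc, hexp, mul_one]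

section General

variable {S : Set ℝ} {w : ℝ → ℝ}

lemma prod_summable (hw : ∀ t, 0 < w t) {f g : S → ℂ} (hf : f ∈ ellOne S w) (hg : g ∈ ellOne S w) :
    Summable fun p : S × S => (‖f p.1‖ * w p.1) * (‖g p.2‖ * w p.2) := by
  have hf' : Summable fun t : S => ‖f t‖ * w t := hf
  have hg' : Summable fun t : S => ‖g t‖ * w t := hg
  exact hf'.mul_of_nonneg hg' (fun t => mul_nonneg (norm_nonneg _) (hw _).le)
    (fun t => mul_nonneg (norm_nonneg _) (hw _).le)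

lemma fiber_bound (hS : ∀ t ∈ S, 0 < t)
    (hsub : ∀ x y : ℝ, 0 < x → 0 < y → w (x + y) ≤ w x * w y) {f g : S → ℂ} (t : S)
    (p : {p : S × S // (p.1 : ℝ) + (p.2 : ℝ) = (t : ℝ)}) :
    ‖f p.1.1 * g p.1.2‖ * w t ≤ (‖f p.1.1‖ * w p.1.1) * (‖g p.1.2‖ * w p.1.2) := by
  rw [norm_mul]
  have h := hsub p.1.1 p.1.2 (hS _ p.1.1.2) (hS _ p.1.2.2)
  rw [p.2] at h
  calc ‖f p.1.1‖ * ‖g p.1.2‖ * w t
      ≤ ‖f p.1.1‖ * ‖g p.1.2‖ * (w p.1.1 * w p.1.2) :=
        mul_le_mul_of_nonneg_left h (mul_nonneg (norm_nonneg _) (norm_nonneg _))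
    _ = _ := by ring

lemma fiber_summable (hw : ∀ t, 0 < w t) (hS : ∀ t ∈ S, 0 < t)
    (hsub : ∀ x y : ℝ, 0 < x → 0 < y → w (x + y) ≤ w x * w y) {f g : S → ℂ}
    (hf : f ∈ ellOne S w) (hg : g ∈ ellOne S w) (t : S) :
    Summable fun p : {p : S × S // (p.1 : ℝ) + (p.2 : ℝ) = (t : ℝ)} => ‖f p.1.1 * g p.1.2‖ := by
  have h1 := (prod_summable hw hf hg).comp_injective
    (i := fun p : {p : S × S // (p.1 : ℝ) + (p.2 : ℝ) = (t : ℝ)} => p.1) Subtype.val_injective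
  have h2 : Summable fun p : {p : S × S // (p.1 : ℝ) + (p.2 : ℝ) = (t : ℝ)} =>
      ‖f p.1.1 * g p.1.2‖ * w t :=
    Summable.of_nonneg_of_le (fun p => mul_nonneg (norm_nonneg _) (hw _).le)
      (fun p => fiber_bound hS hsub t p) h1
  refine (h2.mul_right (w t)⁻¹).congr fun p => ?_
  rw [mul_assoc, mul_inv_cancel₀ (hw t).ne', mul_one]

lemma conv_mem (hw : ∀ t, 0 < w t) (hS : ∀ t ∈ S, 0 < t)
    (hsub : ∀ x y : ℝ, 0 < x → 0 < y → w (x + y) ≤ w x * w y) {f g : S → ℂ}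
    (hf : f ∈ ellOne S w) (hg : g ∈ ellOne S w) : conv S f g ∈ ellOne S w := by
  have h0 : Summable fun x : (Σ t : S, {p : S × S // (p.1 : ℝ) + (p.2 : ℝ) = (t : ℝ)}) =>
      (‖f x.2.1.1‖ * w x.2.1.1) * (‖g x.2.1.2‖ * w x.2.1.2) := by
    refine (prod_summable hw hf hg).comp_injective
      (i := fun x : (Σ t : S, {p : S × S // (p.1 : ℝ) + (p.2 : ℝ) = (t : ℝ)}) => x.2.1) ?_
    rintro ⟨t, p, hp⟩ ⟨t', p', hp'⟩ h
    simp only at h
    subst h
    have : t = t' := Subtype.ext (hp.symm.trans hp')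
    subst this
    rfl
  have h1 := h0.sigma
  refine Summable.of_nonneg_of_le (fun t => mul_nonneg (norm_nonneg _) (hw _).le) (fun t => ?_) h1
  have h2 := fiber_summable hw hS hsub hf hg t
  calc ‖conv S f g t‖ * w t
      ≤ (∑' p : {p : S × S // (p.1 : ℝ) + (p.2 : ℝ) = (t : ℝ)}, ‖f p.1.1 * g p.1.2‖) * w t :=
        mul_le_mul_of_nonneg_right (norm_tsum_le_tsum_norm h2) (hw _).le
    _ = ∑' p : {p : S × S // (p.1 : ℝ) + (p.2 : ℝ) = (t : ℝ)}, ‖f p.1.1 * g p.1.2‖ * w t := by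
        rw [tsum_mul_right]
    _ ≤ _ := (h2.mul_right (w t)).tsum_le_tsum (fun p => fiber_bound hS hsub t p)
        (h0.sigma_factor t)

lemma add_mem' {f g : S → ℂ} (hw : ∀ t, 0 < w t) (hf : f ∈ ellOne S w) (hg : g ∈ ellOne S w) :
    f + g ∈ ellOne S w := by
  refine Summable.of_nonneg_of_le (fun t => mul_nonneg (norm_nonneg _) (hw _).le) (fun t => ?_)
    (Summable.add hf hg)
  have h := mul_le_mul_of_nonneg_right (norm_add_le (f t) (g t)) (hw t).le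
  rw [add_mul] at h
  exact h

lemma smul_mem' {f : S → ℂ} (c : ℂ) (hf : f ∈ ellOne S w) : c • f ∈ ellOne S w := by
  refine (Summable.mul_left ‖c‖ hf).congr fun t => ?_
  rw [Pi.smul_apply, norm_smul, mul_assoc]

lemma square_subset (hw : ∀ t, 0 < w t) (hS : ∀ t ∈ S, 0 < t)
    (hsub : ∀ x y : ℝ, 0 < x → 0 < y → w (x + y) ≤ w x * w y) : square S w ⊆ ellOne S w := by
  intro x hx
  refine Submodule.span_induction (p := fun x _ => x ∈ ellOne S w) ?_ ?_ ?_ ?_ hx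
  · rintro x ⟨f, hf, g, hg, rfl⟩
    exact conv_mem hw hS hsub hf hg
  · show Summable fun t : S => ‖(0 : S → ℂ) t‖ * w t
    simp [summable_zero]
  · intro x y _ _ hx hy
    exact add_mem' hw hx hy
  · intro c x _ hx
    exact smul_mem' c hx

lemma square_eq (hw : ∀ t, 0 < w t) (hS : ∀ t ∈ S, 0 < t)
    (hsub : ∀ x y : ℝ, 0 < x → 0 < y → w (x + y) ≤ w x * w y) (h : TwoProducts S w) :
    square S w = ellOne S w := by
  apply Set.Subset.antisymm (square_subset hw hS hsub)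
  intro a ha
  obtain ⟨b, hb, u, hu, c, hc, v, hv, rfl⟩ := h a ha
  exact Submodule.add_mem _ (Submodule.subset_span ⟨b, hb, u, hu, rfl⟩)
    (Submodule.subset_span ⟨c, hc, v, hv, rfl⟩)

/-- transfer from functions on `ℝ` -/
lemma conv_restrict (b u : ℝ → ℂ) (t : S)
    (h : ∀ x : ℝ, b x ≠ 0 → u (t - x) ≠ 0 → x ∈ S ∧ (t : ℝ) - x ∈ S) :
    ∑' x : ℝ, b x * u (t - x) = conv S (fun x => b x) (fun x => u x) t := by
  unfold conv
  have hinj : Function.Injective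
      (fun p : {p : S × S // (p.1 : ℝ) + (p.2 : ℝ) = (t : ℝ)} => (p.1.1 : ℝ)) := by
    rintro ⟨⟨p1, p2⟩, hp⟩ ⟨⟨q1, q2⟩, hq⟩ h
    simp only at h hp hq
    have h1 : p1 = q1 := Subtype.ext h
    have h2 : p2 = q2 := Subtype.ext (by linarith)
    subst h1; subst h2; rfl
  have hsupp : Function.support (fun x : ℝ => b x * u (t - x)) ⊆ Set.range
      (fun p : {p : S × S // (p.1 : ℝ) + (p.2 : ℝ) = (t : ℝ)} => (p.1.1 : ℝ)) := by
    intro x hx
    rw [Function.mem_support] at hx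
    obtain ⟨h1, h2⟩ := h x (left_ne_zero_of_mul hx) (right_ne_zero_of_mul hx)
    exact ⟨⟨(⟨x, h1⟩, ⟨t - x, h2⟩), by simp⟩, rfl⟩
  rw [← hinj.tsum_eq hsupp]
  refine tsum_congr fun p => ?_
  have : (t : ℝ) - (p.1.1 : ℝ) = p.1.2 := by
    have := p.2
    linarith
  rw [this]

/-- If `S` is bounded away from `0`, then `A ≠ A²`. -/
lemma square_ne (hw : ∀ t, 0 < w t) (hne : S.Nonempty) (ε : ℝ) (hε : 0 < ε)
    (hlow : ∀ t ∈ S, ε ≤ t) : square S w ≠ ellOne S w := by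
  classical
  have hbdd : BddBelow S := ⟨ε, fun t ht => hlow t ht⟩
  have hinf : ε ≤ sInf S := le_csInf hne fun t ht => hlow t ht
  obtain ⟨s, hs, hs2⟩ := exists_lt_of_csInf_lt hne (show sInf S < 2 * sInf S by linarith)
  set a : S → ℂ := fun t => if (t : ℝ) = s then 1 else 0 with ha
  have haA : a ∈ ellOne S w := by
    change Summable fun t : S => ‖a t‖ * w t
    refine summable_of_ne_finset_zero (s := {⟨s, hs⟩}) ?_
    intro t ht
    have : (t : ℝ) ≠ s := fun h => ht (by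
      rw [Finset.mem_singleton]; exact Subtype.ext h)
    simp only [ha, if_neg this, norm_zero, zero_mul]
  intro heq
  rw [← heq] at haA
  have hz : ∀ f : S → ℂ, f ∈ square S w → f ⟨s, hs⟩ = 0 := by
    intro f hf
    refine Submodule.span_induction (p := fun x _ => x ⟨s, hs⟩ = 0) ?_ ?_ ?_ ?_ hf
    · rintro x ⟨f, hf, g, hg, rfl⟩
      unfold conv
      haveI : IsEmpty {p : S × S // (p.1 : ℝ) + (p.2 : ℝ) = ((⟨s, hs⟩ : S) : ℝ)} := by
        refine ⟨?_⟩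
        rintro ⟨⟨x, y⟩, h⟩
        simp only at h
        have hx := csInf_le hbdd x.2
        have hy := csInf_le hbdd y.2
        linarith
      exact tsum_empty
    · rfl
    · intro x y _ _ hx hy
      rw [Pi.add_apply, hx, hy, add_zero]
    · intro c x _ hx
      rw [Pi.smul_apply, hx, smul_zero]
  have h1 := hz a haA
  simp [ha] at h1

end General

theorem twoProducts_of (H : AddSubgroup ℝ) (hH : ∀ ε : ℝ, 0 < ε → ∃ s ∈ H, 0 < s ∧ s ≤ ε)
    (S : Set ℝ) (hS : ∀ t ∈ S, t ∈ H ∧ 0 < t)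
    (hS' : ∀ t ∈ S, ∀ x ∈ H, 0 < x → x < t → x ∈ S) (c l : ℝ) (hl : 0 ≤ l) :
    TwoProducts S (wgt c l) := by
  classical
  intro a ha
  have ha' : Summable fun t : S => ‖a t‖ * wgt c l t := ha
  set A : G.Pos → ℂ := fun q => if h : (q : ℝ) ∈ S then a ⟨q, h⟩ else 0 with hA
  have hAs : Summable fun q : G.Pos => ‖A q‖ * wgt c l q := by
    have hinj : Function.Injective (fun t : S => (⟨t, (hS t t.2).2⟩ : G.Pos)) := by
      intro x y h
      simp only [Subtype.mk.injEq] at h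
      exact Subtype.ext h
    refine (hinj.summable_iff ?_).1 (ha'.congr fun t => ?_)
    · intro q hq
      have : (q : ℝ) ∉ S := fun h => hq ⟨⟨q, h⟩, rfl⟩
      simp [hA, this]
    · simp [hA]
  obtain ⟨b, b', u, u', hb, hb', hb0, hb'0, hu0, hu'0, hbs, hb's, hus, hu's, hid⟩ :=
    two_products_gen c l hl (H : Set ℝ) hH A hAs
  have hres : ∀ f : ℝ → ℂ, (Summable fun x : ℝ => ‖f x‖ * wgt c l x) →
      (fun x : S => f x) ∈ ellOne S (wgt c l) := by
    intro f hf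
    exact hf.comp_injective (i := fun x : S => (x : ℝ)) Subtype.val_injective
  refine ⟨_, hres b hbs, _, hres u hus, _, hres b' hb's, _, hres u' hu's, ?_⟩
  funext t
  have key : ∀ f k : ℝ → ℂ, (∀ x, f x ≠ 0 → x ∈ (H : Set ℝ)) → (∀ x ≤ 0, f x = 0) →
      (∀ x ≤ 0, k x = 0) → ∀ x : ℝ, f x ≠ 0 → k ((t : ℝ) - x) ≠ 0 → x ∈ S ∧ (t : ℝ) - x ∈ S := by
    intro f k hf hf0 hk0 x hx hkx
    have hx0 : 0 < x := by
      by_contra hcon
      exact hx (hf0 x (not_lt.1 hcon))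
    have hx1 : 0 < (t : ℝ) - x := by
      by_contra hcon
      exact hkx (hk0 _ (not_lt.1 hcon))
    have hxH : x ∈ H := hf x hx
    have htH : (t : ℝ) ∈ H := (hS t t.2).1
    exact ⟨hS' t t.2 x hxH hx0 (by linarith),
      hS' t t.2 _ (H.sub_mem htH hxH) hx1 (by linarith)⟩
  have h1 := hid ⟨t, (hS t t.2).2⟩
  have h2 : A ⟨t, (hS t t.2).2⟩ = a t := by simp [hA]
  rw [h2] at h1
  rw [h1, Pi.add_apply, ← conv_restrict b u t (key b u hb hb0 hu0),
    ← conv_restrict b' u' t (key b' u' hb' hb'0 hu'0)]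

/-- **Classification** for (truncated) algebras of subgroups of `ℝ`. -/
theorem classification (H : AddSubgroup ℝ) (S : Set ℝ) (hne : S.Nonempty)
    (hS : ∀ t ∈ S, t ∈ H ∧ 0 < t)
    (hS' : ∀ t ∈ S, ∀ x ∈ H, 0 < x → x < t → x ∈ S) (c l : ℝ) (hl : 0 ≤ l) :
    ¬ Factors S (wgt c l) ∧
    (Dense (H : Set ℝ) → TwoProducts S (wgt c l)) ∧
    (square S (wgt c l) = ellOne S (wgt c l) ↔ Dense (H : Set ℝ)) := by
  have hpos : ∀ t ∈ S, 0 < t := fun t ht => (hS t ht).2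
  have hdense : Dense (H : Set ℝ) → ∀ ε : ℝ, 0 < ε → ∃ s ∈ H, 0 < s ∧ s ≤ ε := by
    intro hd ε hε
    obtain ⟨s, hs, hsH⟩ := hd.exists_mem_open isOpen_Ioo (nonempty_Ioo.2 hε)
    exact ⟨s, hs, hsH.1, hsH.2.le⟩
  have htwo : Dense (H : Set ℝ) → TwoProducts S (wgt c l) := fun hd =>
    twoProducts_of H (hdense hd) S hS hS' c l hl
  refine ⟨?_, htwo, ?_, ?_⟩
  · obtain ⟨t0, ht0⟩ := hne
    have h0 := hpos t0 ht0
    refine not_factors S (wgt c l) t0 (Real.exp (-(|c| * t0) - l * t0 ^ 2)) (Real.exp (|c| * t0))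
      ⟨t0, ht0⟩ hpos h0 (Real.exp_pos _) ?_ (fun t _ => (wgt_pos c l t).le) ?_
    · intro x hx y hy hxy
      rcases hxy.eq_or_lt with h | h
      · rw [h]; exact ht0
      · exact hS' t0 ht0 _ (H.add_mem (hS x hx).1 (hS y hy).1)
          (add_pos (hpos x hx) (hpos y hy)) h
    · intro t ht ht1
      have h1 := hpos t ht
      have h2 : |c| * t ≤ |c| * t0 := mul_le_mul_of_nonneg_left ht1 (abs_nonneg _)
      have h3 : -(|c| * t) ≤ c * t := by
        have := mul_le_mul_of_nonneg_right (neg_abs_le c) h1.le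
        linarith
      have h4 : c * t ≤ |c| * t := mul_le_mul_of_nonneg_right (le_abs_self c) h1.le
      have h5 : l * t ^ 2 ≤ l * t0 ^ 2 :=
        mul_le_mul_of_nonneg_left (pow_le_pow_left₀ h1.le ht1 2) hl
      have h6 : 0 ≤ l * t ^ 2 := by positivity
      constructor
      · exact Real.exp_le_exp.2 (by linarith)
      · exact Real.exp_le_exp.2 (by linarith)
  · intro heq
    by_contra hd
    have h1 : ¬ ∀ ε > 0, ∃ g ∈ H, g ∈ Ioo 0 ε := fun h => hd (H.dense_of_not_isolated_zero h)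
    push Not at h1
    obtain ⟨ε, hε, h2⟩ := h1
    refine square_ne (wgt_pos c l) hne ε hε (fun t ht => ?_) heq
    by_contra hcon
    exact h2 t (hS t ht).1 ⟨hpos t ht, not_le.1 hcon⟩
  · intro hd
    exact square_eq (wgt_pos c l) hpos (fun x y hx hy => wgt_sub hl x y hx hy) (htwo hd)

end Pool.Agent.Y320.FR
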