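import Pool.Agent.TH329.RatL1A

set_option autoImplicit false

open Filter Topology

namespace Pool.Agent.Y320.FR.G

open Pool.Agent.TH329.RatL1

open Classical in
lemma push_summable {ι : Type*} (g : ι → ℂ) (p : ι → ℝ) (w : ℝ → ℝ) (hw : ∀ r, 0 < w r)
    (hg : Summable fun i => ‖g i‖ * w (p i)) :
    Summable fun r : ℝ => ‖∑' i, (if p i = r then g i else 0)‖ * w r := by
  have h1 : Summable fun x : (Σ r : ℝ, {i // p i = r}) => ‖g x.2‖ * w (p x.2) :=
    ((Equiv.sigmaFiberEquiv p).summable_iff (f := fun i => ‖g i‖ * w (p i))).2 hg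
  refine Summable.of_nonneg_of_le (fun r => mul_nonneg (norm_nonneg _) (hw r).le) (fun r => ?_)
    h1.sigma
  have h2 : Summable fun c : {i // p i = r} => ‖g c‖ * w (p c) := h1.sigma_factor r
  have h3 : Summable fun c : {i // p i = r} => ‖g c‖ := by
    refine (h2.mul_right (w r)⁻¹).congr fun c => ?_
    rw [c.2, mul_assoc, mul_inv_cancel₀ (hw r).ne', mul_one]
  have h4 : ∑' i, (if p i = r then g i else 0) = ∑' c : {i // p i = r}, g c := by
    refine Eq.trans ?_ (tsum_subtype {i | p i = r} g).symm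
    refine tsum_congr fun i => ?_
    simp [Set.indicator]
  rw [h4]
  calc ‖∑' c : {i // p i = r}, g c‖ * w r ≤ (∑' c : {i // p i = r}, ‖g c‖) * w r :=
        mul_le_mul_of_nonneg_right (norm_tsum_le_tsum_norm h3) (hw r).le
    _ = ∑' c : {i // p i = r}, ‖g c‖ * w (p c) := by
        rw [← tsum_mul_right]
        refine tsum_congr fun c => ?_
        rw [c.2]


/-- strictly positive reals -/
abbrev Pos : Type := {q : ℝ // 0 < q}

open Classical in
/-- `∑ κ^m δ_{s_m}` over `m ≡ ε mod 2` -/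
noncomputable def BB (s : ℕ → ℝ) (κ : ℝ) (ε : ℕ) (x : ℝ) : ℂ :=
  ∑' m : ℕ, (if s m = x then (if m % 2 = ε then ((κ ^ m : ℝ) : ℂ) else 0) else 0)

open Classical in
/-- the quotient `∑ κ^{-j(q)} a'_q δ_{q - s_{j(q)}}` over `q` with `j(q) ≡ ε mod 2` -/
noncomputable def UU (s : ℕ → ℝ) (κ : ℝ) (j : Pos → ℕ) (a' : Pos → ℂ) (ε : ℕ) (r : ℝ) : ℂ :=
  ∑' q : Pos, (if (q : ℝ) - s (j q) = r then
    (if j q % 2 = ε then (((κ ^ (j q))⁻¹ : ℝ) : ℂ) * a' q else 0) else 0)

lemma BB_apply {s : ℕ → ℝ} (hinj : Function.Injective s) (κ : ℝ) (ε m : ℕ) :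
    BB s κ ε (s m) = if m % 2 = ε then ((κ ^ m : ℝ) : ℂ) else 0 := by
  classical
  unfold BB
  rw [tsum_eq_single m]
  · simp
  · intro n hn
    rw [if_neg]
    intro h
    exact hn (hinj h)

lemma BB_eq_zero {s : ℕ → ℝ} (κ : ℝ) (ε : ℕ) {x : ℝ} (hx : x ∉ Set.range s) :
    BB s κ ε x = 0 := by
  classical
  unfold BB
  have : ∀ m, (if s m = x then (if m % 2 = ε then ((κ ^ m : ℝ) : ℂ) else 0) else 0) = 0 := by
    intro m
    rw [if_neg]
    intro h
    exact hx ⟨m, h⟩
  rw [tsum_congr this, tsum_zero]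

lemma UU_eq_zero {s : ℕ → ℝ} (κ : ℝ) {j : Pos → ℕ} (hj : ∀ q : Pos, s (j q) < q)
    (a' : Pos → ℂ) (ε : ℕ) {r : ℝ} (hr : r ≤ 0) : UU s κ j a' ε r = 0 := by
  classical
  unfold UU
  have : ∀ q : Pos, (if (q : ℝ) - s (j q) = r then
    (if j q % 2 = ε then (((κ ^ (j q))⁻¹ : ℝ) : ℂ) * a' q else 0) else 0) = 0 := by
    intro q
    rw [if_neg]
    intro h
    have := hj q
    linarith
  rw [tsum_congr this, tsum_zero]

lemma summable_ite_of {ι : Type*} {H : ι → ℂ} (hH : Summable H) (p : ι → Prop)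
    [DecidablePred p] : Summable fun z => if p z then H z else 0 := by
  refine Summable.of_norm_bounded (g := fun z => ‖H z‖) hH.norm (fun z => ?_)
  split_ifs
  · exact le_rfl
  · rw [norm_zero]; exact norm_nonneg _

open Classical in
theorem core (w : ℝ → ℝ) (hw : ∀ t, 0 < w t)
    (hsub : ∀ x y : ℝ, 0 < x → 0 < y → w (x + y) ≤ w x * w y)
    (s : ℕ → ℝ) (hs : ∀ m, 0 < s m) (hinj : Function.Injective s)
    (j : Pos → ℕ) (hj : ∀ q : Pos, s (j q) < q)
    (W : Pos → ℝ) (hW : ∀ q, 0 < W q)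
    (κ : ℝ) (hκ : 0 < κ) (hsum : Summable fun m => κ ^ m * w (s m))
    (C : ℝ) (h2 : ∀ q : Pos, (κ ^ (j q))⁻¹ * w (q - s (j q)) ≤ C * W q)
    (loc : Pos → ℕ → Pos) (hloc : ∀ q m, (loc q m : ℝ) = q - s (j q) + s m)
    (coef : Pos → ℕ → ℝ)
    (hcoef : ∀ q m, coef q m = if m % 2 = j q % 2 ∧ m ≠ j q then κ ^ m * (κ ^ (j q))⁻¹ else 0)
    {θ : ℝ} (hθ : θ < 1)
    (h3 : ∀ q, Summable fun m => coef q m * W (loc q m))
    (h3' : ∀ q, ∑' m, coef q m * W (loc q m) ≤ θ * W q)
    (a : Pos → ℂ) (ha : Summable fun q => ‖a q‖ * W q) :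
    ∃ a' : Pos → ℂ, (∀ ε, Summable fun x : ℝ => ‖BB s κ ε x‖ * w x) ∧
      (∀ ε, Summable fun x : ℝ => ‖UU s κ j a' ε x‖ * w x) ∧
      ∀ t : Pos, a t = ∑' x : ℝ, BB s κ 0 x * UU s κ j a' 0 (t - x)
        + ∑' x : ℝ, BB s κ 1 x * UU s κ j a' 1 (t - x) := by
  have hcoef0 : ∀ q m, 0 ≤ coef q m := by
    intro q m
    rw [hcoef]
    split_ifs
    · positivity
    · exact le_rfl
  obtain ⟨a', ha', hat⟩ := neumannW W hW loc coef hcoef0 hθ h3 h3' a ha
  refine ⟨a', ?_, ?_, ?_⟩
  · intro ε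
    refine push_summable (fun m => if m % 2 = ε then ((κ ^ m : ℝ) : ℂ) else 0) s w hw ?_
    refine Summable.of_nonneg_of_le (fun m => mul_nonneg (norm_nonneg _) (hw _).le) (fun m => ?_) hsum
    refine mul_le_mul_of_nonneg_right ?_ (hw _).le
    split_ifs
    · rw [Complex.norm_real, Real.norm_of_nonneg (by positivity)]
    · rw [norm_zero]; positivity
  · intro ε
    refine push_summable (fun q : Pos => if j q % 2 = ε then (((κ ^ (j q))⁻¹ : ℝ) : ℂ) * a' q else 0)
      (fun q : Pos => (q : ℝ) - s (j q)) w hw ?_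
    refine Summable.of_nonneg_of_le (fun m => mul_nonneg (norm_nonneg _) (hw _).le) (fun q => ?_)
      (ha'.mul_left C)
    have hC : (κ ^ (j q))⁻¹ * w (q - s (j q)) * ‖a' q‖ ≤ C * W q * ‖a' q‖ :=
      mul_le_mul_of_nonneg_right (h2 q) (norm_nonneg _)
    have hC0 : 0 ≤ (κ ^ (j q))⁻¹ * w (q - s (j q)) * ‖a' q‖ :=
      mul_nonneg (mul_nonneg (by positivity) (hw _).le) (norm_nonneg _)
    split_ifs
    · rw [norm_mul, Complex.norm_real, Real.norm_of_nonneg (by positivity : 0 ≤ (κ ^ (j q))⁻¹)]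
      nlinarith [hC]
    · rw [norm_zero, zero_mul]
      nlinarith [hC, hC0]
  · intro t
    -- the double family
    set H : ℕ × Pos → ℂ := fun z => if loc z.2 z.1 = t then
      (if z.1 % 2 = j z.2 % 2 then ((κ ^ z.1 : ℝ) : ℂ) * ((((κ ^ (j z.2))⁻¹ : ℝ) : ℂ) * a' z.2) else 0)
      else 0 with hH
    have hbound : ∀ z, ‖H z‖ ≤ (w t)⁻¹ * ((κ ^ z.1 * w (s z.1)) * (C * (‖a' z.2‖ * W z.2))) := by
      rintro ⟨m, q⟩
      have hnn : 0 ≤ (w t)⁻¹ * ((κ ^ m * w (s m)) * (((κ ^ (j q))⁻¹ * w (q - s (j q))) * ‖a' q‖)) := by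
        have h1 := (hw t).le
        have h2 := (hw (s m)).le
        have h3 := (hw (q - s (j q))).le
        positivity
      have hle : (w t)⁻¹ * ((κ ^ m * w (s m)) * (((κ ^ (j q))⁻¹ * w (q - s (j q))) * ‖a' q‖)) ≤
          (w t)⁻¹ * ((κ ^ m * w (s m)) * (C * (‖a' q‖ * W q))) := by
        have h1 : (((κ ^ (j q))⁻¹ * w (q - s (j q))) * ‖a' q‖) ≤ C * (‖a' q‖ * W q) := by
          have := mul_le_mul_of_nonneg_right (h2 q) (norm_nonneg (a' q))
          nlinarith [this]
        refine mul_le_mul_of_nonneg_left ?_ (inv_nonneg.2 (hw t).le)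
        exact mul_le_mul_of_nonneg_left h1 (mul_nonneg (by positivity) (hw _).le)
      refine le_trans ?_ hle
      simp only [hH]
      split_ifs with hl hp
      · rw [norm_mul, norm_mul, Complex.norm_real, Complex.norm_real,
          Real.norm_of_nonneg (by positivity : 0 ≤ κ ^ m),
          Real.norm_of_nonneg (by positivity : 0 ≤ (κ ^ (j q))⁻¹)]
        have ht : (t : ℝ) = s m + (q - s (j q)) := by
          rw [← hl, hloc]; ring
        have hwt : w t ≤ w (s m) * w (q - s (j q)) := by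
          rw [ht]
          exact hsub _ _ (hs m) (by have := hj q; linarith)
        have h1 : 1 ≤ (w t)⁻¹ * (w (s m) * w (q - s (j q))) := by
          rw [← div_eq_inv_mul, le_div_iff₀ (hw t)]
          linarith
        have h4 : 0 ≤ κ ^ m * ((κ ^ (j q))⁻¹ * ‖a' q‖) := by positivity
        calc κ ^ m * ((κ ^ (j q))⁻¹ * ‖a' q‖) = κ ^ m * ((κ ^ (j q))⁻¹ * ‖a' q‖) * 1 := by ring
          _ ≤ κ ^ m * ((κ ^ (j q))⁻¹ * ‖a' q‖) * ((w t)⁻¹ * (w (s m) * w (q - s (j q)))) :=
            mul_le_mul_of_nonneg_left h1 h4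
          _ = _ := by ring
      · rw [norm_zero]; exact hnn
      · rw [norm_zero]; exact hnn
    have hHs : Summable H := by
      refine Summable.of_norm_bounded
        (g := fun z : ℕ × Pos => (w t)⁻¹ * ((κ ^ z.1 * w (s z.1)) * (C * (‖a' z.2‖ * W z.2)))) ?_ hbound
      refine Summable.mul_left _ ?_
      have h1 := ha'.mul_left C
      have hC0 : ∀ q : Pos, 0 ≤ C * (‖a' q‖ * W q) := by
        intro q
        have h3 : 0 ≤ C * W q := le_trans (mul_nonneg (by positivity) (hw _).le) (h2 q)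
        nlinarith [norm_nonneg (a' q)]
      exact hsum.mul_of_nonneg h1 (fun m => mul_nonneg (by positivity) (hw _).le) hC0
    -- each product as a sum over the double family
    have hε : ∀ ε : ℕ, ∑' x : ℝ, BB s κ ε x * UU s κ j a' ε (t - x) =
        ∑' z : ℕ × Pos, if z.1 % 2 = ε then H z else 0 := by
      intro ε
      have hsε : Summable fun z : ℕ × Pos => if z.1 % 2 = ε then H z else 0 :=
        summable_ite_of hHs _
      rw [hsε.tsum_prod]
      have h1 : ∑' x : ℝ, BB s κ ε x * UU s κ j a' ε (t - x) =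
          ∑' m : ℕ, BB s κ ε (s m) * UU s κ j a' ε (t - s m) := by
        symm
        refine hinj.tsum_eq (f := fun x : ℝ => BB s κ ε x * UU s κ j a' ε (t - x)) ?_
        intro x hx
        by_contra hcon
        apply hx
        show BB s κ ε x * UU s κ j a' ε (t - x) = 0
        rw [BB_eq_zero κ ε hcon, zero_mul]
      rw [h1]
      refine tsum_congr fun m => ?_
      rw [BB_apply hinj]
      by_cases hm : m % 2 = ε
      · simp only [hm, if_true]
        unfold UU
        rw [← tsum_mul_left]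
        refine tsum_congr fun q => ?_
        simp only [hH]
        have hiff : ((q : ℝ) - s (j q) = t - s m) ↔ loc q m = t := by
          rw [Subtype.ext_iff, hloc]
          constructor
          · intro h; linarith
          · intro h; linarith
        by_cases hl : loc q m = t
        · rw [if_pos (hiff.2 hl), if_pos hl, hm]
          by_cases hp : j q % 2 = ε
          · rw [if_pos hp, if_pos hp.symm]
          · rw [if_neg hp, if_neg (fun h => hp h.symm), mul_zero]
        · rw [if_neg (fun h => hl (hiff.1 h)), if_neg hl, mul_zero]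
      · simp [hm]
    rw [hε 0, hε 1]
    have hs0 : Summable fun z : ℕ × Pos => if z.1 % 2 = 0 then H z else 0 :=
      summable_ite_of hHs _
    have hs1 : Summable fun z : ℕ × Pos => if z.1 % 2 = 1 then H z else 0 :=
      summable_ite_of hHs _
    rw [← hs0.tsum_add hs1]
    have hadd : ∀ z : ℕ × Pos, ((if z.1 % 2 = 0 then H z else 0) + (if z.1 % 2 = 1 then H z else 0)) = H z := by
      intro z
      rcases Nat.mod_two_eq_zero_or_one z.1 with h | h <;> simp [h]
    simp only [hadd]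
    -- swap
    have hsw : Summable fun z : Pos × ℕ => H z.swap := hHs.prod_symm
    have e1 : ∑' z, H z = ∑' q : Pos, ∑' m : ℕ, H (m, q) := by
      have h0 : ∑' z : Pos × ℕ, H z.swap = ∑' z, H z := (Equiv.prodComm Pos ℕ).tsum_eq H
      rw [← h0]
      exact hsw.tsum_prod
    rw [e1]
    have e2 : ∀ q : Pos, ∑' m : ℕ, H (m, q) = (if q = t then a' q else 0) +
        a' q * ∑' m : ℕ, (coef q m : ℂ) * (if loc q m = t then 1 else 0) := by
      intro q
      have hq : Summable fun m : ℕ => H (m, q) := hsw.prod_factor q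
      rw [hq.tsum_eq_add_tsum_ite (j q)]
      have hlq : loc q (j q) = q := by
        apply Subtype.ext
        rw [hloc]; ring
      congr 1
      · simp only [hH, hlq, if_true]
        have hk : ((κ ^ (j q) : ℝ) : ℂ) * ((((κ ^ (j q))⁻¹ : ℝ) : ℂ) * a' q) = a' q := by
          rw [← mul_assoc, ← Complex.ofReal_mul, mul_inv_cancel₀ (by positivity)]
          simp
        rw [hk]
      · rw [← tsum_mul_left]
        refine tsum_congr fun m => ?_
        by_cases hm : m = j q
        · rw [if_pos hm, hcoef, if_neg (by simp [hm])]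
          simp
        · rw [if_neg hm]
          simp only [hH]
          by_cases hl : loc q m = t
          · rw [if_pos hl, if_pos hl, hcoef]
            by_cases hp : m % 2 = j q % 2
            · rw [if_pos hp, if_pos ⟨hp, hm⟩]
              push_cast
              ring
            · rw [if_neg hp, if_neg (fun h => hp h.1)]
              simp
          · rw [if_neg hl, if_neg hl]; simp
    have hF2 : Summable fun q : Pos => (if q = t then a' q else 0) :=
      summable_of_ne_finset_zero (s := {t}) (by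
        intro b hb
        rw [if_neg]
        intro h
        exact hb (by simp [h]))
    have hF1 : Summable fun q : Pos => ∑' m : ℕ, H (m, q) := hsw.prod
    have hF3 : Summable fun q : Pos => a' q * ∑' m : ℕ, (coef q m : ℂ) * (if loc q m = t then 1 else 0) := by
      have := hF1.sub hF2
      refine this.congr fun q => ?_
      rw [e2 q]; ring
    rw [tsum_congr e2, hF2.tsum_add hF3, tsum_ite_eq]
    convert (hat t).symm

end Pool.Agent.Y320.FR.G
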