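import Pool.Agent.Y320.FR.Defs

set_option autoImplicit false
open scoped BigOperators Topology
open Filter

namespace Pool.Agent.Y320.FR

open Pool.Agent.Helper976.Fac
namespace J551

/-- LEMMA L. The semicharacter `ω(v) = lim exp(-s_n v_n)` on positive elements of the ultrapower of
`ℝ` is approximated on finite sets by `exp(-L)`, `L` additive, vanishing where `ω = 1`. -/
theorem lemmaL (s : ℕ → ℝ) (hs : ∀ n, 0 < s n)
    (F : Finset ((hyperfilter ℕ : Filter ℕ).Germ ℝ)) (hF : ∀ v ∈ F, 0 < v)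
    (ω : (hyperfilter ℕ : Filter ℕ).Germ ℝ → ℝ)
    (hω : ∀ a : ℕ → ℝ, 0 < (a : (hyperfilter ℕ : Filter ℕ).Germ ℝ) →
      Tendsto (fun n => Real.exp (-(s n * (a n : ℝ)))) (hyperfilter ℕ : Filter ℕ)
        (𝓝 (ω (a : (hyperfilter ℕ : Filter ℕ).Germ ℝ))))
    (ε : ℝ) (hε : 0 < ε) :
    ∃ L : (hyperfilter ℕ : Filter ℕ).Germ ℝ →+ ℝ, (∀ v ∈ F, 0 ≤ L v) ∧
      (∀ v ∈ F, ω v = 1 → L v = 0) ∧ (∀ v ∈ F, |Real.exp (-(L v)) - ω v| ≤ ε) := by
  classical
  -- representatives
  have hrep : ∀ v : (hyperfilter ℕ : Filter ℕ).Germ ℝ, ∃ a : ℕ → ℝ,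
      (a : (hyperfilter ℕ : Filter ℕ).Germ ℝ) = v := by
    intro v
    induction v using Filter.Germ.inductionOn with
    | _ f => exact ⟨f, rfl⟩
  -- the infinitesimal subspace
  let C : Submodule ℝ ((hyperfilter ℕ : Filter ℕ).Germ ℝ) :=
    { carrier := {v | ∃ a : ℕ → ℝ, (a : (hyperfilter ℕ : Filter ℕ).Germ ℝ) = v ∧
        Tendsto (fun n => s n * (a n : ℝ)) (hyperfilter ℕ : Filter ℕ) (𝓝 0)}
      add_mem' := by
        rintro x y ⟨a, rfl, ha⟩ ⟨b, rfl, hb⟩
        refine ⟨a + b, rfl, ?_⟩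
        have h := ha.add hb
        simp only [add_zero] at h
        refine h.congr ?_
        intro n
        simp only [Pi.add_apply]
        push_cast
        ring
      zero_mem' := by
        refine ⟨0, rfl, ?_⟩
        simp
      smul_mem' := by
        rintro q x ⟨a, rfl, ha⟩
        refine ⟨q • a, rfl, ?_⟩
        have h := ha.const_mul (q : ℝ)
        simp only [mul_zero] at h
        refine h.congr ?_
        intro n
        simp only [Pi.smul_apply, smul_eq_mul]
        push_cast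
        ring }
  have hCmem : ∀ a : ℕ → ℝ, (a : (hyperfilter ℕ : Filter ℕ).Germ ℝ) ∈ C ↔
      Tendsto (fun n => s n * (a n : ℝ)) (hyperfilter ℕ : Filter ℕ) (𝓝 0) := by
    intro a
    constructor
    · rintro ⟨b, hb, hb2⟩
      have hab : b =ᶠ[(hyperfilter ℕ : Filter ℕ)] a := Filter.Germ.coe_eq.1 hb
      refine hb2.congr' ?_
      filter_upwards [hab] with n hn
      rw [hn]
    · intro h
      exact ⟨a, rfl, h⟩
  obtain ⟨D, hCD⟩ := Submodule.exists_isCompl C
  let π : (hyperfilter ℕ : Filter ℕ).Germ ℝ →ₗ[ℝ] D := D.projectionOnto C hCD.symm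
  have hπ : ∀ v : (hyperfilter ℕ : Filter ℕ).Germ ℝ, v - (π v : (hyperfilter ℕ : Filter ℕ).Germ ℝ) ∈ C := by
    intro v
    have : π (v - (π v : (hyperfilter ℕ : Filter ℕ).Germ ℝ)) = 0 := by
      rw [map_sub]
      have h2 : π ((π v : (hyperfilter ℕ : Filter ℕ).Germ ℝ)) = π v :=
        Submodule.projectionOnto_apply_left hCD.symm (π v)
      rw [h2, sub_self]
    exact (Submodule.projectionOnto_apply_eq_zero_iff hCD.symm).1 this
  have hπ0 : ∀ v ∈ C, π v = 0 := fun v hv =>
    (Submodule.projectionOnto_apply_eq_zero_iff hCD.symm).2 hv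
  let W : Submodule ℝ ((hyperfilter ℕ : Filter ℕ).Germ ℝ) :=
    Submodule.span ℝ ((F.image (fun v => (π v : (hyperfilter ℕ : Filter ℕ).Germ ℝ)) : Finset _) : Set _)
  haveI : FiniteDimensional ℝ W := by
    apply FiniteDimensional.span_finset
  have hWmem : ∀ v ∈ F, (π v : (hyperfilter ℕ : Filter ℕ).Germ ℝ) ∈ W := by
    intro v hv
    apply Submodule.subset_span
    rw [Finset.mem_coe, Finset.mem_image]
    exact ⟨v, hv, rfl⟩
  obtain ⟨g, hg⟩ := W.subtype.exists_leftInverse_of_injective (LinearMap.ker_eq_bot.2 W.injective_subtype)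
  have hg' : ∀ w : W, g (w : (hyperfilter ℕ : Filter ℕ).Germ ℝ) = w := by
    intro w
    have := LinearMap.congr_fun hg w
    simpa using this
  let B := Module.finBasis ℝ W
  choose β hβ using fun i => hrep ((B i : W) : (hyperfilter ℕ : Filter ℕ).Germ ℝ)
  let ev : ℕ → W →ₗ[ℝ] ℝ := fun n => B.constr ℝ (fun i => β i n)
  have hev : ∀ w : W, ((fun n => ev n w : ℕ → ℝ) : (hyperfilter ℕ : Filter ℕ).Germ ℝ) =
      (w : (hyperfilter ℕ : Filter ℕ).Germ ℝ) := by
    intro w
    have h1 : (fun n => ev n w : ℕ → ℝ) = ∑ i, (B.repr w i) • (β i) := by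
      funext n
      simp only [ev, Module.Basis.constr_apply_fintype, Finset.sum_apply, Pi.smul_apply,
        Module.Basis.equivFun_apply]
    have h2 : (w : (hyperfilter ℕ : Filter ℕ).Germ ℝ) = ∑ i, (B.repr w i) • ((B i : W) : (hyperfilter ℕ : Filter ℕ).Germ ℝ) := by
      conv_lhs => rw [← B.sum_repr w]
      simp only [Submodule.coe_sum, Submodule.coe_smul]
    rw [h1, h2]
    have h3 : ∀ (S : Finset (Fin (Module.finrank ℝ W))),
        ((∑ i ∈ S, (B.repr w i) • (β i) : ℕ → ℝ) : (hyperfilter ℕ : Filter ℕ).Germ ℝ) =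
          ∑ i ∈ S, (B.repr w i) • ((B i : W) : (hyperfilter ℕ : Filter ℕ).Germ ℝ) := by
      intro S
      induction S using Finset.induction_on with
      | empty => simp
      | insert i S hi ih =>
        rw [Finset.sum_insert hi, Finset.sum_insert hi, Filter.Germ.coe_add, ih,
          Filter.Germ.coe_smul, hβ]
    exact h3 Finset.univ
  -- the functionals
  let Ln : ℕ → ((hyperfilter ℕ : Filter ℕ).Germ ℝ →+ ℝ) := fun n =>
    { toFun := fun v => s n * ((ev n (g (π v : (hyperfilter ℕ : Filter ℕ).Germ ℝ)) : ℝ) : ℝ)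
      map_zero' := by simp
      map_add' := by
        intro x y
        simp only [map_add, Submodule.coe_add]
        push_cast
        ring }
  have hLn : ∀ n v, Ln n v = s n * ((ev n (g (π v : (hyperfilter ℕ : Filter ℕ).Germ ℝ)) : ℝ) : ℝ) :=
    fun n v => rfl
  -- key eventual statement
  have hone : ∀ v ∈ F, ω v = 1 → v ∈ C := by
    intro v hv h1
    obtain ⟨a, rfl⟩ := hrep v
    have h2 := hω a (hF _ hv)
    rw [h1] at h2
    rw [hCmem]
    have h3 := (Real.continuousAt_log one_ne_zero).tendsto.comp h2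
    rw [Real.log_one] at h3
    have h4 := h3.neg
    rw [neg_zero] at h4
    refine h4.congr ?_
    intro n
    simp
  have key : ∀ v ∈ F, ∀ᶠ n in (hyperfilter ℕ : Filter ℕ), 0 ≤ Ln n v ∧ (ω v = 1 → Ln n v = 0) ∧
      |Real.exp (-(Ln n v)) - ω v| ≤ ε := by
    intro v hv
    by_cases hvC : v ∈ C
    · have hz : ∀ n, Ln n v = 0 := by
        intro n
        rw [hLn, hπ0 v hvC]
        simp
      have hw1 : ω v = 1 := by
        obtain ⟨a, rfl⟩ := hrep v
        have h2 := hω a (hF _ hv)
        have h3 := (hCmem a).1 hvC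
        have h4 : Tendsto (fun n => Real.exp (-(s n * (a n : ℝ)))) (hyperfilter ℕ : Filter ℕ) (𝓝 1) := by
          have h5 := (Real.continuous_exp.tendsto 0).comp (by simpa using h3.neg)
          rw [Real.exp_zero] at h5
          exact h5
        exact tendsto_nhds_unique h2 h4
      refine Filter.Eventually.of_forall ?_
      intro n
      rw [hz n, hw1]
      simp [hε.le]
    · -- not infinitesimal
      obtain ⟨a, ha⟩ := hrep v
      obtain ⟨c, hc, hc0⟩ := hπ v
      set w : W := ⟨(π v : (hyperfilter ℕ : Filter ℕ).Germ ℝ), hWmem v hv⟩ with hwdef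
      have hgw : g (π v : (hyperfilter ℕ : Filter ℕ).Germ ℝ) = w := hg' w
      have hevw := hev w
      have heq : ((fun n => ev n w : ℕ → ℝ) : (hyperfilter ℕ : Filter ℕ).Germ ℝ) =
          ((a - c : ℕ → ℝ) : (hyperfilter ℕ : Filter ℕ).Germ ℝ) := by
        rw [hevw, Filter.Germ.coe_sub, ha, hc]
        simp [hwdef]
      have heq' : (fun n => ev n w) =ᶠ[(hyperfilter ℕ : Filter ℕ)] (a - c) := Filter.Germ.coe_eq.1 heq
      have hpos : 0 < (π v : (hyperfilter ℕ : Filter ℕ).Germ ℝ) := by
        by_contra hneg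
        rw [not_lt] at hneg
        apply hvC
        have hle : v ≤ v - (π v : (hyperfilter ℕ : Filter ℕ).Germ ℝ) := by
          have := sub_nonneg.2 hneg
          linarith
        rw [← hc, ← ha] at hle
        have hle' : a ≤ᶠ[(hyperfilter ℕ : Filter ℕ)] c := Filter.Germ.coe_le.1 hle
        have hvpos := hF v hv
        rw [← ha] at hvpos
        have hapos : ∀ᶠ n in (hyperfilter ℕ : Filter ℕ), 0 < a n := by
          exact Filter.Germ.coe_pos.1 hvpos
        rw [← ha, hCmem]
        refine tendsto_of_tendsto_of_tendsto_of_le_of_le' tendsto_const_nhds hc0 ?_ ?_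
        · filter_upwards [hapos] with n hn
          exact mul_nonneg (hs n).le (by exact_mod_cast hn.le)
        · filter_upwards [hle'] with n hn
          exact mul_le_mul_of_nonneg_left (by exact_mod_cast hn) (hs n).le
      have hevpos : ∀ᶠ n in (hyperfilter ℕ : Filter ℕ), 0 < ev n w := by
        have : (0 : (hyperfilter ℕ : Filter ℕ).Germ ℝ) < ((fun n => ev n w : ℕ → ℝ) : (hyperfilter ℕ : Filter ℕ).Germ ℝ) := by
          rw [hevw]; exact hpos
        exact Filter.Germ.coe_pos.1 this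
      have hlim : Tendsto (fun n => Real.exp (-(Ln n v))) (hyperfilter ℕ : Filter ℕ) (𝓝 (ω v)) := by
        have h1 := hω a (by rw [ha]; exact hF v hv)
        rw [ha] at h1
        have h2 : Tendsto (fun n => Real.exp (s n * (c n : ℝ))) (hyperfilter ℕ : Filter ℕ) (𝓝 1) := by
          have h5 := (Real.continuous_exp.tendsto 0).comp hc0
          rw [Real.exp_zero] at h5
          exact h5
        have h3 := h1.mul h2
        rw [mul_one] at h3
        refine h3.congr' ?_
        filter_upwards [heq'] with n hn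
        rw [hLn, hgw, ← Real.exp_add]
        congr 1
        have hn' : ev n w = a n - c n := hn
        rw [hn']
        push_cast
        ring
      have hclose : ∀ᶠ n in (hyperfilter ℕ : Filter ℕ), |Real.exp (-(Ln n v)) - ω v| ≤ ε := by
        have h4 := (Metric.tendsto_nhds.1 hlim) ε hε
        filter_upwards [h4] with n hn
        rw [Real.dist_eq] at hn
        exact hn.le
      filter_upwards [hevpos, hclose] with n h1 h2
      refine ⟨?_, ?_, h2⟩
      · rw [hLn, hgw]
        exact mul_nonneg (hs n).le (by exact_mod_cast h1.le)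
      · intro h
        exact absurd (hone v hv h) hvC
  have hall : ∀ᶠ n in (hyperfilter ℕ : Filter ℕ), ∀ v ∈ F, 0 ≤ Ln n v ∧ (ω v = 1 → Ln n v = 0) ∧
      |Real.exp (-(Ln n v)) - ω v| ≤ ε := by
    rw [Filter.eventually_all_finset]
    exact key
  obtain ⟨n, hn⟩ := hall.exists
  exact ⟨Ln n, fun v hv => (hn v hv).1, fun v hv => (hn v hv).2.1, fun v hv => (hn v hv).2.2⟩

end J551
end Pool.Agent.Y320.FR
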