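import Pool.Agent.Y320.FR.Lemmas

set_option autoImplicit false
open scoped BigOperators Topology
open Filter

namespace Pool.Agent.Y320.FR

open Pool.Agent.Helper976.Fac
namespace J802

/-! helper lemmas -/

theorem cut_nonneg (t : ℕ → ℝ) (a : ℕ) : 0 ≤ cut t a := by
  unfold cut
  positivity

theorem exp_cut_le_one (t : ℕ → ℝ) (a : ℕ) (q : ℝ) (hq : 0 < q) :
    Real.exp (-(cut t a * (q : ℝ))) ≤ 1 := by
  rw [Real.exp_le_one_iff]
  have h1 := cut_nonneg t a
  have h2 : (0:ℝ) < q := by exact_mod_cast hq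
  have := mul_nonneg h1 h2.le
  linarith

theorem cut_mul_le {c : ℕ → ℝ} {a0 : ℕ} (h1 : 1 ≤ a0) {B : ℝ} {n : ℕ} {t : ℕ → ℝ} {g h : ℝ → ℂ}
    (hD : FData c a0 n B t g h) (hn : 0 < n) (a : ℕ) (ha : a0 ≤ a) :
    cut t a * (t a : ℝ) ≤ 1 / Real.sqrt n := by
  have hr := hD.ratio (a - 1) (by omega)
  have e : a - 1 + 1 = a := by omega
  rw [e] at hr
  have hp : (0:ℝ) < t a := by exact_mod_cast hD.tpos a
  have hp' : (0:ℝ) < t (a - 1) := by exact_mod_cast hD.tpos (a - 1)
  have hn' : (0:ℝ) < n := by exact_mod_cast hn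
  unfold cut
  rw [one_div_mul_eq_div, div_le_div_iff₀ (Real.sqrt_pos.mpr (by positivity))
    (Real.sqrt_pos.mpr hn'), one_mul]
  apply Real.le_sqrt_of_sq_le
  rw [mul_pow, Real.sq_sqrt hn'.le]
  nlinarith

theorem le_cut_mul {c : ℕ → ℝ} {a0 : ℕ} (h1 : 1 ≤ a0) {B : ℝ} {n : ℕ} {t : ℕ → ℝ} {g h : ℝ → ℂ}
    (hD : FData c a0 n B t g h) (a : ℕ) (ha : a0 ≤ a) :
    Real.sqrt n ≤ cut t a * (t (a - 1) : ℝ) := by
  have hr := hD.ratio (a - 1) (by omega)
  have e : a - 1 + 1 = a := by omega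
  rw [e] at hr
  have hp : (0:ℝ) < t a := by exact_mod_cast hD.tpos a
  have hp' : (0:ℝ) < t (a - 1) := by exact_mod_cast hD.tpos (a - 1)
  unfold cut
  rw [one_div_mul_eq_div, le_div_iff₀ (Real.sqrt_pos.mpr (by positivity)),
    ← Real.sqrt_mul (Nat.cast_nonneg n)]
  rw [Real.sqrt_le_left hp'.le]
  nlinarith

theorem tendsto_one_div_sqrt :
    Tendsto (fun n : ℕ => 1 / Real.sqrt n) (hyperfilter ℕ : Filter ℕ) (𝓝 0) := by
  have h1 : Tendsto (fun n : ℕ => Real.sqrt n) atTop atTop :=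
    Real.tendsto_sqrt_atTop.comp tendsto_natCast_atTop_atTop
  have h2 : Tendsto (fun n : ℕ => 1 / Real.sqrt n) atTop (𝓝 0) := by
    have h3 := h1.inv_tendsto_atTop
    refine h3.congr fun n => ?_
    rw [Pi.inv_apply, one_div]
  exact h2.mono_left Nat.hyperfilter_le_atTop

theorem ev_gt (N : ℕ) : ∀ᶠ n in (hyperfilter ℕ : Filter ℕ), N < n :=
  Nat.hyperfilter_le_atTop (eventually_gt_atTop N)

/-- if `0 ≤ y n ≤ 1/√n` eventually then `exp (-y n) → 1` -/
theorem exp_to_one (y : ℕ → ℝ)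
    (h : ∀ᶠ n in (hyperfilter ℕ : Filter ℕ), 0 ≤ y n ∧ y n ≤ 1 / Real.sqrt n) :
    Tendsto (fun n => Real.exp (-(y n))) (hyperfilter ℕ : Filter ℕ) (𝓝 1) := by
  have h1 : Tendsto y (hyperfilter ℕ : Filter ℕ) (𝓝 0) :=
    tendsto_of_tendsto_of_tendsto_of_le_of_le' tendsto_const_nhds tendsto_one_div_sqrt
      (h.mono fun n hn => hn.1) (h.mono fun n hn => hn.2)
  have h2 : Tendsto (fun n => Real.exp (-(y n))) (hyperfilter ℕ : Filter ℕ)
      (𝓝 (Real.exp (-0))) := (Real.continuous_exp.tendsto _).comp h1.neg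
  simpa using h2

section K0
variable (c : ℕ → ℝ) (hc : ∀ i, 0 < c i) (hanti : Antitone c) (hcs : Summable c)
  (a0 : ℕ) (h1 : 1 ≤ a0) (B : ℝ) (t : ℕ → ℕ → ℝ) (g h : ℕ → ℝ → ℂ)
  (hD : ∀ n : ℕ, FData c a0 n B (t n) (g n) (h n))

include hD in
theorem tauV_pos (j : ℕ) : 0 < tauV t j := by
  unfold tauV
  exact Germ.coe_pos.mpr (Eventually.of_forall fun n => (hD n).tpos j)

include hD in
theorem tauV_ratio (j : ℕ) (hj : a0 ≤ j + 1) (N : ℕ) : N • tauV t (j + 1) < tauV t j := by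
  unfold tauV
  rw [← Germ.coe_smul]
  rw [Germ.coe_lt]
  filter_upwards [ev_gt N] with n hn
  have h2 := (hD n).ratio j hj
  have h3 : (0:ℝ) < t n (j + 1) := by exact_mod_cast (hD n).tpos (j + 1)
  have h4 : (N:ℝ) < n := by exact_mod_cast hn
  have h5 : (N:ℝ) * (t n (j + 1) : ℝ) < (t n j : ℝ) := by nlinarith
  have h6 : (N:ℝ) * t n (j + 1) < t n j := by exact_mod_cast h5
  simpa using h6

theorem om_tendsto (t : ℕ → ℕ → ℝ) (a : ℕ) (x : ℕ → ℝ) (hx : 0 < (x : GV)) :
    Tendsto (fun n => Real.exp (-(cut (t n) a * (x n : ℝ)))) (hyperfilter ℕ : Filter ℕ)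
      (𝓝 (om t a (x : GV))) := by
  have h2 := star_tendsto (fun n q => if 0 < q then
    ((Real.exp (-(cut (t n) a * (q : ℝ))) : ℝ) : ℂ) else 0) 1 (by
      intro n q
      split_ifs with hq
      · rw [Complex.norm_real, Real.norm_eq_abs, abs_of_pos (Real.exp_pos _)]
        exact exp_cut_le_one _ _ _ hq
      · simp) x
  have h3 := (Complex.continuous_re.tendsto _).comp h2
  refine h3.congr' ?_
  filter_upwards [Germ.coe_pos.mp hx] with n hn
  simp only [Function.comp]
  rw [if_pos hn, Complex.ofReal_re]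

theorem om_nonneg (t : ℕ → ℕ → ℝ) (a : ℕ) (v : GV) (hv : 0 < v) : 0 ≤ om t a v := by
  induction v using Germ.inductionOn with
  | _ x =>
    exact ge_of_tendsto (om_tendsto t a x hv) (Eventually.of_forall fun n => (Real.exp_pos _).le)

theorem om_le_one (t : ℕ → ℕ → ℝ) (a : ℕ) (v : GV) (hv : 0 < v) : om t a v ≤ 1 := by
  induction v using Germ.inductionOn with
  | _ x =>
    refine le_of_tendsto (om_tendsto t a x hv) ?_
    filter_upwards [Germ.coe_pos.mp hv] with n hn
    exact exp_cut_le_one _ _ _ hn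

theorem om_mul (t : ℕ → ℕ → ℝ) (a : ℕ) (v w : GV) (hv : 0 < v) (hw : 0 < w) :
    om t a (v + w) = om t a v * om t a w := by
  have hvw : 0 < v + w := add_pos hv hw
  induction v using Germ.inductionOn with
  | _ x =>
  induction w using Germ.inductionOn with
  | _ y =>
    have h2 := om_tendsto t a x hv
    have h3 := om_tendsto t a y hw
    have h4 := om_tendsto t a (x + y) (by exact hvw)
    have h5 := h2.mul h3
    refine tendsto_nhds_unique h4 (h5.congr fun n => ?_)
    rw [← Real.exp_add]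
    congr 1
    simp only [Pi.add_apply]
    push_cast
    ring

include h1 hD in
theorem om_tau (a j : ℕ) (ha : a0 ≤ a) (hj : a ≤ j) : om t a (tauV t j) = 1 := by
  have h2 := om_tendsto t a (fun n => t n j) (tauV_pos c a0 B t g h hD j)
  refine tendsto_nhds_unique h2 (exp_to_one _ ?_)
  filter_upwards [ev_gt 0] with n hn
  have h3 := cut_mul_le h1 (hD n) hn a ha
  have h4 : (t n j : ℝ) ≤ t n a := by exact_mod_cast (hD n).tanti hj
  have h5 : (0:ℝ) < t n j := by exact_mod_cast (hD n).tpos j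
  have h6 := cut_nonneg (t n) a
  exact ⟨mul_nonneg h6 h5.le, le_trans (mul_le_mul_of_nonneg_left h4 h6) h3⟩

include h1 hD in
theorem om_big (a j : ℕ) (ha : a0 ≤ a) (hj : j < a) (v : GV) (hv : 0 < v)
    (hs : ¬ Pool.Agent.Helper976.Fac.Small (tauV t j) v) : om t a v = 0 := by
  unfold Pool.Agent.Helper976.Fac.Small at hs
  push Not at hs
  obtain ⟨N, hN⟩ := hs
  rw [abs_of_pos hv] at hN
  induction v using Germ.inductionOn with
  | _ x =>
    have hN0 : 0 < N := by
      rcases Nat.eq_zero_or_pos N with h0 | h0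
      · exfalso
        rw [h0, zero_smul] at hN
        exact absurd (tauV_pos c a0 B t g h hD j) (not_lt.mpr hN)
      · exact h0
    have h2 := om_tendsto t a x hv
    refine tendsto_nhds_unique h2 ?_
    have h3 : ∀ᶠ n in (hyperfilter ℕ : Filter ℕ), t n j ≤ N • x n := by
      have : tauV t j ≤ ((N • x : ℕ → ℝ) : GV) := by
        rw [Germ.coe_smul]; exact hN
      exact Germ.coe_le.mp this
    have hNr : (0:ℝ) < N := by exact_mod_cast hN0
    have h4 : ∀ᶠ n in (hyperfilter ℕ : Filter ℕ),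
        Real.exp (-(cut (t n) a * (x n : ℝ))) ≤ Real.exp (-(Real.sqrt n / N)) := by
      filter_upwards [h3] with n hn
      rw [Real.exp_le_exp, neg_le_neg_iff, div_le_iff₀ hNr]
      have h5 := le_cut_mul h1 (hD n) a ha
      have h6 : (t n (a - 1) : ℝ) ≤ t n j := by exact_mod_cast (hD n).tanti (by omega)
      have h7 : (t n j : ℝ) ≤ N * x n := by
        rw [nsmul_eq_mul] at hn
        exact_mod_cast hn
      have h8 := cut_nonneg (t n) a
      calc Real.sqrt n ≤ cut (t n) a * (t n (a - 1) : ℝ) := h5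
        _ ≤ cut (t n) a * (N * x n) := mul_le_mul_of_nonneg_left (le_trans h6 h7) h8
        _ = cut (t n) a * x n * N := by ring
    have h9 : Tendsto (fun n : ℕ => Real.exp (-(Real.sqrt n / N))) (hyperfilter ℕ : Filter ℕ)
        (𝓝 0) := by
      have e1 : Tendsto (fun n : ℕ => Real.sqrt n / N) atTop atTop :=
        (Real.tendsto_sqrt_atTop.comp tendsto_natCast_atTop_atTop).atTop_div_const hNr
      have e2 : Tendsto (fun n : ℕ => Real.exp (-(Real.sqrt n / N))) atTop (𝓝 0) :=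
        Real.tendsto_exp_neg_atTop_nhds_zero.comp e1
      exact e2.mono_left Nat.hyperfilter_le_atTop
    exact tendsto_of_tendsto_of_tendsto_of_le_of_le' tendsto_const_nhds h9
      (Eventually.of_forall fun n => (Real.exp_pos _).le) h4

include h1 hD in
theorem om_om (a b : ℕ) (ha : a0 ≤ a) (hab : a < b) (v : GV) (hv : 0 < v)
    (hb : om t b v ≠ 0) : om t a v = 1 := by
  have hsm : Pool.Agent.Helper976.Fac.Small (tauV t (b - 1)) v := by
    by_contra hcon
    exact hb (om_big c a0 h1 B t g h hD b (b - 1) (by omega) (by omega) v hv hcon)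
  have h2 := hsm 1
  rw [one_smul, abs_of_pos hv] at h2
  induction v using Germ.inductionOn with
  | _ x =>
    have h3 := om_tendsto t a x hv
    refine tendsto_nhds_unique h3 (exp_to_one _ ?_)
    filter_upwards [ev_gt 0, Germ.coe_pos.mp hv, Germ.coe_lt.mp h2] with n hn hx0 hx
    have h4 := cut_mul_le h1 (hD n) hn a ha
    have h5 : (x n : ℝ) ≤ t n a := by
      have e1 : t n (b - 1) ≤ t n a := (hD n).tanti (by omega)
      exact_mod_cast le_trans hx.le e1
    have h6 : (0:ℝ) < x n := by exact_mod_cast hx0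
    have h7 := cut_nonneg (t n) a
    exact ⟨mul_nonneg h7 h6.le, le_trans (mul_le_mul_of_nonneg_left h5 h7) h4⟩

theorem star_pos (g : ℕ → ℝ → ℂ) (hg : ∀ n q, q ≤ 0 → g n q = 0) (C : ℝ)
    (hC : ∀ n q, ‖g n q‖ ≤ C) (v : GV) (hv : v ≤ 0) : star g v = 0 := by
  induction v using Germ.inductionOn with
  | _ x =>
    have h2 := star_tendsto g C hC x
    refine tendsto_nhds_unique h2 (tendsto_const_nhds.congr' ?_)
    have h3 : ∀ᶠ n in (hyperfilter ℕ : Filter ℕ), x n ≤ 0 := Germ.coe_le.mp hv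
    filter_upwards [h3] with n hn
    exact (hg n _ hn).symm

theorem star_damped (t : ℕ → ℕ → ℝ) (g : ℕ → ℝ → ℂ) (hg : ∀ n q, q ≤ 0 → g n q = 0) (C : ℝ)
    (hC : ∀ n q, ‖g n q‖ ≤ C) (a : ℕ) (v : GV) :
    star (fun n q => g n q * ((Real.exp (-(cut (t n) a * (q : ℝ))) : ℝ) : ℂ)) v =
      star g v * (om t a v : ℂ) := by
  have hbd : ∀ n q, ‖g n q * ((Real.exp (-(cut (t n) a * (q : ℝ))) : ℝ) : ℂ)‖ ≤ C := by
    intro n q
    rcases le_or_gt q 0 with hq | hq
    · rw [hg n q hq, zero_mul, norm_zero]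
      exact le_trans (norm_nonneg _) (hC n q)
    · rw [norm_mul, Complex.norm_real, Real.norm_eq_abs, abs_of_pos (Real.exp_pos _)]
      calc ‖g n q‖ * Real.exp (-(cut (t n) a * (q : ℝ))) ≤ ‖g n q‖ * 1 :=
            mul_le_mul_of_nonneg_left (exp_cut_le_one _ _ _ hq) (norm_nonneg _)
        _ = ‖g n q‖ := mul_one _
        _ ≤ C := hC n q
  rcases le_or_gt v 0 with hv | hv
  · rw [star_pos _ (fun n q hq => by rw [hg n q hq, zero_mul]) C hbd v hv,
      star_pos g hg C hC v hv, zero_mul]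
  · induction v using Germ.inductionOn with
    | _ x =>
      have h2 := star_tendsto _ C hbd x
      have h3 := star_tendsto g C hC x
      have h4 := om_tendsto t a x hv
      have h5 : Tendsto (fun n => ((Real.exp (-(cut (t n) a * (x n : ℝ))) : ℝ) : ℂ))
          (hyperfilter ℕ : Filter ℕ) (𝓝 ((om t a (x : GV) : ℝ) : ℂ)) :=
        (Complex.continuous_ofReal.tendsto _).comp h4
      exact tendsto_nhds_unique h2 (h3.mul h5)

end K0

end J802
end Pool.Agent.Y320.FR
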