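import Pool.Agent.Y320.FR.Lemmas3

set_option autoImplicit false
open scoped BigOperators Topology
open Filter

namespace Pool.Agent.Y320.FR

open Pool.Agent.Helper976.Fac
namespace J803

/-! All lemmas of this section except the last, `conv_om`, MAY BE USED and are not targets. -/
section K0
variable (c : ℕ → ℝ) (hc : ∀ i, 0 < c i) (hanti : Antitone c) (hcs : Summable c)
  (a0 : ℕ) (h1 : 1 ≤ a0) (B : ℝ) (t : ℕ → ℕ → ℝ) (g h : ℕ → ℝ → ℂ)
  (hD : ∀ n : ℕ, FData c a0 n B (t n) (g n) (h n))

/-! TARGET: -/
open Classical in
include hc hanti hcs h1 hD in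
theorem conv_om (a : ℕ) (ha : a0 ≤ a) (v : GV) :
    ∑' w, (star g w * (om t a w : ℂ)) * (star h (v - w) * (om t a (v - w) : ℂ)) =
      ∑' i, if v = tauV t (a + i) then (c (a + i) : ℂ) else 0 := by
  have hgb : ∀ n q, ‖g n q‖ ≤ B := fun n q =>
    ((hD n).gsum.le_tsum q (fun _ _ => norm_nonneg _)).trans (hD n).gB
  have hhb : ∀ n q, ‖h n q‖ ≤ B := fun n q =>
    ((hD n).hsum.le_tsum q (fun _ _ => norm_nonneg _)).trans (hD n).hB
  have hB0 : 0 ≤ B := (norm_nonneg _).trans (hgb 0 0)
  have hg0 : ∀ w : GV, w ≤ 0 → star g w = 0 := fun w hw =>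
    star_pos g (fun n => (hD n).gpos) B hgb w hw
  have hh0 : ∀ w : GV, w ≤ 0 → star h w = 0 := fun w hw =>
    star_pos h (fun n => (hD n).hpos) B hhb w hw
  have htp : ∀ j, 0 < tauV t j := fun j => tauV_pos c a0 B t g h hD j
  rcases le_or_gt v 0 with hv | hv
  · have e1 : ∀ w : GV, (star g w * (om t a w : ℂ)) *
        (star h (v - w) * (om t a (v - w) : ℂ)) = 0 := by
      intro w
      rcases le_or_gt w 0 with hw | hw
      · rw [hg0 w hw]; simp
      · rw [hh0 (v - w) (by rw [sub_nonpos]; exact hv.trans hw.le)]; simp
    have e2 : ∀ i, (if v = tauV t (a + i) then (c (a + i) : ℂ) else 0) = 0 := by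
      intro i
      rw [if_neg]
      intro he
      exact absurd (he ▸ htp (a + i)) (not_lt.2 hv)
    simp only [e1, e2, tsum_zero]
  · have e1 : ∀ w : GV, (star g w * (om t a w : ℂ)) *
        (star h (v - w) * (om t a (v - w) : ℂ)) =
        (om t a v : ℂ) * (star g w * star h (v - w)) := by
      intro w
      rcases le_or_gt w 0 with hw | hw
      · rw [hg0 w hw]; simp
      · rcases le_or_gt (v - w) 0 with hw' | hw'
        · rw [hh0 (v - w) hw']; simp
        · have := om_mul t a w (v - w) hw hw'
          rw [add_sub_cancel] at this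
          rw [this]
          push_cast
          ring
    simp only [e1]
    rw [tsum_mul_left]
    have hsq : ∀ n, Summable (fun q => ‖h n q‖ ^ 2) ∧ ∑' q, ‖h n q‖ ^ 2 ≤ B ^ 2 := by
      intro n
      have h2 : ∀ q, ‖h n q‖ ^ 2 ≤ B * ‖h n q‖ := by
        intro q
        rw [sq]
        exact mul_le_mul_of_nonneg_right (hhb n q) (norm_nonneg _)
      have hs2 : Summable (fun q => ‖h n q‖ ^ 2) :=
        Summable.of_nonneg_of_le (fun q => sq_nonneg _) h2 ((hD n).hsum.mul_left B)
      refine ⟨hs2, ?_⟩
      calc ∑' q, ‖h n q‖ ^ 2 ≤ ∑' q, B * ‖h n q‖ :=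
            hs2.tsum_le_tsum h2 ((hD n).hsum.mul_left B)
        _ = B * ∑' q, ‖h n q‖ := tsum_mul_left
        _ ≤ B * B := mul_le_mul_of_nonneg_left (hD n).hB hB0
        _ = B ^ 2 := (sq B).symm
    rw [← star_conv g h B B (fun n => (hD n).gsum) (fun n => (hD n).gB)
      (fun n => (hsq n).1) (fun n => (hsq n).2) v]
    obtain ⟨x, hx⟩ : ∃ x : ℕ → ℝ, x = Quotient.out v := ⟨_, rfl⟩
    have hxv : (x : GV) = v := by rw [hx]; exact Quotient.out_eq v
    have heqt : ∀ j, v = tauV t j ↔ ∀ᶠ n in (hyperfilter ℕ : Filter ℕ), x n = t n j := by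
      intro j
      rw [← hxv]
      exact Filter.Germ.coe_eq
    by_cases hx1 : ∀ᶠ n in (hyperfilter ℕ : Filter ℕ), x n ≤ 1
    · have hlim : Tendsto (fun n => ∑' r, g n r * h n (x n - r)) (hyperfilter ℕ : Filter ℕ)
          (𝓝 (∑' j, if v = tauV t j then (c j : ℂ) else 0)) := by
        have h3 : Tendsto (fun n => ∑' j, if x n = t n j then (c j : ℂ) else 0)
            (hyperfilter ℕ : Filter ℕ) (𝓝 (∑' j, if v = tauV t j then (c j : ℂ) else 0)) := by
          refine tendsto_tsum_of_dominated_convergence (bound := c) hcs ?_ ?_
          · intro j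
            by_cases hj : v = tauV t j
            · rw [if_pos hj]
              refine tendsto_const_nhds.congr' ?_
              filter_upwards [(heqt j).1 hj] with n hn
              rw [if_pos hn]
            · rw [if_neg hj]
              have h4 : ∀ᶠ n in (hyperfilter ℕ : Filter ℕ), ¬ (x n = t n j) := by
                rw [Ultrafilter.eventually_not]
                rwa [heqt j] at hj
              refine tendsto_const_nhds.congr' ?_
              filter_upwards [h4] with n hn
              rw [if_neg hn]
          · refine Filter.Eventually.of_forall (fun n j => ?_)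
            split_ifs
            · rw [Complex.norm_real, Real.norm_of_nonneg (hc j).le]
            · rw [norm_zero]; exact (hc j).le
        refine h3.congr' ?_
        filter_upwards [hx1] with n hn
        rw [(hD n).conv (x n) hn]
      have hst : star (fun n q => ∑' r, g n r * h n (q - r)) v =
          ∑' j, if v = tauV t j then (c j : ℂ) else 0 := by
        unfold star
        rw [← hx]
        exact hlim.limUnder_eq
      rw [hst, ← tsum_mul_left]
      have hinj : Function.Injective (fun i : ℕ => a + i) := fun i j hij => by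
        simpa using hij
      have hsupp : Function.support (fun j => (om t a v : ℂ) *
          (if v = tauV t j then (c j : ℂ) else 0)) ⊆ Set.range (fun i : ℕ => a + i) := by
        intro j hj
        rw [Function.mem_support] at hj
        rcases lt_or_ge j a with hja | hja
        · exfalso
          apply hj
          by_cases he : v = tauV t j
          · have h5 : om t a v = 0 := om_big c a0 h1 B t g h hD a j ha hja v hv (by
              intro hsm
              have := hsm 1
              rw [one_nsmul, abs_of_pos hv, he] at this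
              exact lt_irrefl _ this)
            rw [h5]; simp
          · rw [if_neg he, mul_zero]
        · exact ⟨j - a, by simp only; omega⟩
      rw [← hinj.tsum_eq hsupp]
      refine tsum_congr (fun i => ?_)
      by_cases he : v = tauV t (a + i)
      · rw [if_pos he, he, om_tau c a0 h1 B t g h hD a (a + i) ha (by omega)]
        simp
      · simp only [he, if_false, mul_zero]
    · have h6 : ∀ᶠ n in (hyperfilter ℕ : Filter ℕ), 1 < x n := by
        have := Ultrafilter.eventually_not.2 hx1
        filter_upwards [this] with n hn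
        exact not_le.1 hn
      have h7 : om t a v = 0 := om_big c a0 h1 B t g h hD a (a - 1) ha (by omega) v hv (by
        intro hsm
        have h8 := hsm 1
        rw [one_nsmul, abs_of_pos hv] at h8
        have h9 : tauV t (a - 1) ≤ v := by
          rw [← hxv]
          refine Filter.Germ.coe_le.2 ?_
          filter_upwards [h6] with n hn
          exact ((hD n).tone (a - 1)).trans hn.le
        exact absurd h8 (not_lt.2 h9))
      have e2 : ∀ i, (if v = tauV t (a + i) then (c (a + i) : ℂ) else 0) = 0 := by
        intro i
        rw [if_neg]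
        intro he
        have h10 := (heqt (a + i)).1 he
        obtain ⟨n, hn1, hn2⟩ := (h10.and h6).exists
        have := (hD n).tone (a + i)
        rw [← hn1] at this
        exact absurd this (not_le.2 hn2)
      simp only [e2, tsum_zero, h7, Complex.ofReal_zero, zero_mul]

end K0

end J803
end Pool.Agent.Y320.FR
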