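import Pool.Agent.Y320.FR.Lemmas5

set_option autoImplicit false
open scoped BigOperators Topology
open Filter

namespace Pool.Agent.Y320.FR

open Pool.Agent.Helper976.Fac
namespace J805


/-! The lemmas of this section MAY BE USED, they are not targets. -/
section K0
variable (c : ℕ → ℝ) (hc : ∀ i, 0 < c i) (hanti : Antitone c) (hcs : Summable c)
  (a0 : ℕ) (h1 : 1 ≤ a0) (B : ℝ) (t : ℕ → ℕ → ℝ) (g h : ℕ → ℝ → ℂ)
  (hD : ∀ n : ℕ, FData c a0 n B (t n) (g n) (h n))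

end K0

theorem conv_finsupp (f u : ℝ → ℂ) (S : Finset ℝ) (hS : ∀ s, s ∉ S → u s = 0) (q : ℝ) :
    ∑' r, f r * u (q - r) = ∑ s ∈ S, f (q - s) * u s := by
  have h1 : ∑' r, f r * u (q - r) = ∑' s, f (q - s) * u s := by
    rw [← (Equiv.subLeft q).tsum_eq (fun r => f r * u (q - r))]
    refine tsum_congr fun s => ?_
    simp [Equiv.subLeft_apply]
  rw [h1, tsum_eq_sum]
  intro s hs
  rw [hS s hs, mul_zero]

theorem conv_bound (f u : ℝ → ℂ) (hf : Summable fun q => ‖f q‖) (B C : ℝ)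
    (hB : ∑' q, ‖f q‖ ≤ B) (hu : (Function.support u).Finite) (hC : ∑' q, ‖u q‖ ≤ C) :
    Summable (fun q => ‖∑' r, f r * u (q - r)‖) ∧ ∑' q, ‖∑' r, f r * u (q - r)‖ ≤ B * C := by
  have hB0 : 0 ≤ B := le_trans (tsum_nonneg fun q => norm_nonneg _) hB
  set S : Finset ℝ := hu.toFinset with hSdef
  have hS : ∀ s, s ∉ S → u s = 0 := by
    intro s hs
    by_contra h
    exact hs (by rw [hSdef, Set.Finite.mem_toFinset]; exact h)
  have hle : ∀ q, ‖∑' r, f r * u (q - r)‖ ≤ ∑ s ∈ S, ‖f (q - s)‖ * ‖u s‖ := by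
    intro q
    rw [conv_finsupp f u S hS q]
    refine (norm_sum_le _ _).trans (Finset.sum_le_sum fun s _ => ?_)
    rw [norm_mul]
  have hsh : ∀ s : ℝ, Summable (fun q => ‖f (q - s)‖) := fun s =>
    (Equiv.subRight s).summable_iff.2 hf
  have hsht : ∀ s : ℝ, ∑' q, ‖f (q - s)‖ = ∑' q, ‖f q‖ := fun s =>
    (Equiv.subRight s).tsum_eq (fun q => ‖f q‖)
  have hsum : Summable (fun q => ∑ s ∈ S, ‖f (q - s)‖ * ‖u s‖) :=
    summable_sum fun s _ => (hsh s).mul_right _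
  have hsm : Summable (fun q => ‖∑' r, f r * u (q - r)‖) :=
    Summable.of_nonneg_of_le (fun q => norm_nonneg _) hle hsum
  refine ⟨hsm, ?_⟩
  calc ∑' q, ‖∑' r, f r * u (q - r)‖ ≤ ∑' q, ∑ s ∈ S, ‖f (q - s)‖ * ‖u s‖ :=
        hsm.tsum_le_tsum hle hsum
    _ = ∑ s ∈ S, ∑' q, ‖f (q - s)‖ * ‖u s‖ :=
        Summable.tsum_finsetSum fun s _ => (hsh s).mul_right _
    _ = ∑ s ∈ S, (∑' q, ‖f q‖) * ‖u s‖ := by
        refine Finset.sum_congr rfl fun s _ => ?_
        rw [tsum_mul_right, hsht]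
    _ ≤ ∑ s ∈ S, B * ‖u s‖ :=
        Finset.sum_le_sum fun s _ => mul_le_mul_of_nonneg_right hB (norm_nonneg _)
    _ = B * ∑' q, ‖u q‖ := by
        rw [← Finset.mul_sum, tsum_eq_sum]
        intro s hs
        rw [hS s hs, norm_zero]
    _ ≤ B * C := mul_le_mul_of_nonneg_left hC hB0

open Classical in
theorem star_delta_sub (k : ℕ → ℝ → ℂ) (C : ℝ) (hC : ∀ n q, ‖k n q‖ ≤ C) (v : GV) :
    star (fun n q => (if q = 0 then (1 : ℂ) else 0) - k n q) v =
      (if v = 0 then (1 : ℂ) else 0) - star k v := by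
  induction v using Filter.Germ.inductionOn with
  | _ a =>
    have h1 := star_tendsto (fun n q => (if q = 0 then (1 : ℂ) else 0) - k n q) (1 + C) (by
      intro n q
      refine (norm_sub_le _ _).trans (add_le_add ?_ (hC n q))
      split_ifs <;> simp) a
    have h2 := star_tendsto k C hC a
    have h3 : Tendsto (fun n => if a n = 0 then (1 : ℂ) else 0) (hyperfilter ℕ : Filter ℕ)
        (𝓝 (if (a : GV) = 0 then (1 : ℂ) else 0)) := by
      by_cases h : (a : GV) = 0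
      · rw [if_pos h]
        have h' : (a : ℕ → ℝ) =ᶠ[(hyperfilter ℕ : Filter ℕ)] (fun _ => 0) := by
          have : (a : GV) = ((fun _ => 0 : ℕ → ℝ) : GV) := h
          exact Filter.Germ.coe_eq.1 this
        refine tendsto_const_nhds.congr' ?_
        filter_upwards [h'] with n hn
        rw [if_pos hn]
      · rw [if_neg h]
        have h' : ∀ᶠ n in (hyperfilter ℕ : Filter ℕ), ¬ (a n = 0) := by
          rw [Ultrafilter.eventually_not]
          intro hh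
          apply h
          exact Filter.Germ.coe_eq.2 hh
        refine tendsto_const_nhds.congr' ?_
        filter_upwards [h'] with n hn
        rw [if_neg hn]
    exact tendsto_nhds_unique h1 (h3.sub h2)

theorem single_le (f : ℝ → ℂ) (hf : Summable fun q => ‖f q‖) (B : ℝ) (hB : ∑' q, ‖f q‖ ≤ B)
    (q : ℝ) : ‖f q‖ ≤ B :=
  (hf.le_tsum q fun _ _ => norm_nonneg _).trans hB

open Classical in
theorem half (t : ℕ → ℕ → ℝ) (k : ℕ → ℝ → ℂ) (B : ℝ) (a1 : ℕ)
    (kpos : ∀ n q, q ≤ 0 → k n q = 0) (ksum : ∀ n, Summable fun q => ‖k n q‖)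
    (kB : ∀ n, ∑' q, ‖k n q‖ ≤ B) (d : ℝ) (hd : 0 < d)
    (hlow : ∀ φ : GV →+ ℝ, d ≤ ‖hat (fun v => star k v * (om t a1 v : ℂ)) φ‖)
    (ρ ε : ℝ) (hρ : 1 / d < ρ) (hε : 0 < ε) :
    ∃ n, Fine (cut (t n) a1) ε ρ (k n) := by
  set kd : ℕ → ℝ → ℂ := fun n q => k n q * ((Real.exp (-(cut (t n) a1 * (q : ℝ))) : ℝ) : ℂ)
    with hkd
  have hcut : ∀ n, 0 ≤ cut (t n) a1 := fun n => by unfold cut; positivity
  have hkdle : ∀ n q, ‖kd n q‖ ≤ ‖k n q‖ := by
    intro n q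
    rcases le_or_gt q 0 with hq | hq
    · simp [hkd, kpos n q hq]
    · simp only [hkd, norm_mul, Complex.norm_real, Real.norm_eq_abs, Real.abs_exp]
      refine mul_le_of_le_one_right (norm_nonneg _) ?_
      rw [Real.exp_le_one_iff]
      have : (0 : ℝ) < q := by exact_mod_cast hq
      have := mul_nonneg (hcut n) this.le
      linarith
  have hkdsum : ∀ n, Summable fun q => ‖kd n q‖ := fun n =>
    Summable.of_nonneg_of_le (fun q => norm_nonneg _) (hkdle n) (ksum n)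
  have hkdB : ∀ n, ∑' q, ‖kd n q‖ ≤ B := fun n =>
    ((hkdsum n).tsum_le_tsum (hkdle n) (ksum n)).trans (kB n)
  have hstar : (fun v => star k v * (om t a1 v : ℂ)) = star kd := by
    funext v
    exact (star_damped t k kpos B (fun n q => single_le _ (ksum n) B (kB n) q) a1 v).symm
  rw [hstar] at hlow
  obtain ⟨F, u, huF, hu2, hinv⟩ := approx_inverse (star kd) (star_l1 kd B hkdsum hkdB).1 d hd hlow
    ρ ε hρ hε
  obtain ⟨u', hu'f, hu'C, hu's⟩ := star_lift F u huF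
  set C' : ℝ := ∑ v ∈ F, ‖u v‖ with hC'
  have hC'0 : 0 ≤ C' := Finset.sum_nonneg fun v _ => norm_nonneg _
  have hu'sum : ∀ n, Summable fun q => ‖u' n q‖ := fun n => by
    apply summable_of_hasFiniteSupport
    refine (hu'f n).subset ?_
    intro q hq
    simpa [Function.mem_support] using hq
  have hu'sum2 : ∀ n, Summable fun q => ‖u' n q‖ ^ 2 := fun n => by
    apply summable_of_hasFiniteSupport
    refine (hu'f n).subset ?_
    intro q hq
    simpa [Function.mem_support] using hq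
  have hu'2 : ∀ n, ∑' q, ‖u' n q‖ ^ 2 ≤ C' ^ 2 := fun n => by
    calc ∑' q, ‖u' n q‖ ^ 2 ≤ ∑' q, C' * ‖u' n q‖ := by
          refine (hu'sum2 n).tsum_le_tsum (fun q => ?_) ((hu'sum n).mul_left _)
          rw [sq]
          exact mul_le_mul_of_nonneg_right (single_le _ (hu'sum n) C' (hu'C n) q) (norm_nonneg _)
      _ = C' * ∑' q, ‖u' n q‖ := tsum_mul_left
      _ ≤ C' * C' := mul_le_mul_of_nonneg_left (hu'C n) hC'0
      _ = C' ^ 2 := by ring
  have ev1 : ∀ᶠ n in (hyperfilter ℕ : Filter ℕ), ∑' q, ‖u' n q‖ ^ 2 < ρ ^ 2 := by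
    apply star_l2_limit u' C' hu'sum hu'C
    rw [hu's]
    exact hu2
  have hconv : ∀ n, Summable (fun q => ‖∑' r, kd n r * u' n (q - r)‖) ∧
      ∑' q, ‖∑' r, kd n r * u' n (q - r)‖ ≤ B * C' := fun n =>
    conv_bound (kd n) (u' n) (hkdsum n) B C' (hkdB n) (hu'f n) (hu'C n)
  have hdelta : Summable (fun q : ℝ => ‖(if q = 0 then (1 : ℂ) else 0)‖) := by
    apply summable_of_hasFiniteSupport
    refine (Set.finite_singleton (0 : ℝ)).subset ?_
    intro q hq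
    by_contra h
    have h' : q ≠ 0 := h
    apply hq
    simp [h']
  have hdelta1 : ∑' q : ℝ, ‖(if q = 0 then (1 : ℂ) else 0)‖ = 1 := by
    rw [tsum_eq_single 0]
    · simp
    · intro q hq
      simp [hq]
  have hwle : ∀ n q, ‖(if q = 0 then (1 : ℂ) else 0) - ∑' r, kd n r * u' n (q - r)‖ ≤
      ‖(if q = 0 then (1 : ℂ) else 0)‖ + ‖∑' r, kd n r * u' n (q - r)‖ := fun n q =>
    norm_sub_le _ _
  have hwsum : ∀ n, Summable
      fun q => ‖(if q = 0 then (1 : ℂ) else 0) - ∑' r, kd n r * u' n (q - r)‖ := fun n =>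
    Summable.of_nonneg_of_le (fun q => norm_nonneg _) (hwle n) (hdelta.add (hconv n).1)
  have hwB : ∀ n, ∑' q, ‖(if q = 0 then (1 : ℂ) else 0) - ∑' r, kd n r * u' n (q - r)‖ ≤
      1 + B * C' := fun n => by
    refine ((hwsum n).tsum_le_tsum (hwle n) (hdelta.add (hconv n).1)).trans ?_
    rw [hdelta.tsum_add (hconv n).1, hdelta1]
    linarith [(hconv n).2]
  have hcb : ∀ n q, ‖∑' r, kd n r * u' n (q - r)‖ ≤ B * C' := fun n q =>
    ((hconv n).1.le_tsum q fun _ _ => norm_nonneg _).trans (hconv n).2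
  have ev2 : ∀ᶠ n in (hyperfilter ℕ : Filter ℕ),
      ∑' q, ‖(if q = 0 then (1 : ℂ) else 0) - ∑' r, kd n r * u' n (q - r)‖ ^ 2 < ε ^ 2 := by
    apply star_l2_limit (fun n q => (if q = 0 then (1 : ℂ) else 0) - ∑' r, kd n r * u' n (q - r))
      (1 + B * C') hwsum hwB
    refine lt_of_eq_of_lt ?_ hinv
    refine tsum_congr fun v => ?_
    rw [star_delta_sub (fun n q => ∑' r, kd n r * u' n (q - r)) (B * C') hcb v,
      star_conv kd u' B C' hkdsum hkdB hu'sum2 hu'2 v, hu's]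
  obtain ⟨n, hn1, hn2⟩ := (ev1.and ev2).exists
  refine ⟨n, u' n, hu'f n, hn1.le, ?_⟩
  refine le_of_eq_of_le ?_ hn2.le
  refine tsum_congr fun q => ?_
  congr

/-- TARGET -/
theorem core_T1 (c : ℕ → ℝ) (hc : ∀ i, 0 < c i) (hanti : Antitone c) (hcs : Summable c)
    (a0 a1 : ℕ) (h1 : 1 ≤ a0) (h01 : a0 < a1) (B : ℝ) (hB : 0 < B)
    (M : ℝ) (hM : M = ∑ i ∈ Finset.range (a1 - a0), c (a0 + i)) (hMB : M ≤ 8 * B ^ 2)
    (hmass : M < ∑' i, c (a1 + i)) (hsm1 : c a0 ≤ M ^ 2 / (2 * B ^ 2))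
    (σ : ℝ) (hσ0 : 0 ≤ σ) (hσ : ∑' i, c (a0 + i) ^ 2 ≤ σ ^ 2)
    (hsm2 : 4 * c a0 + 2 * σ < (M / (4 * B)) ^ 2 / 2)
    (ρ ε : ℝ) (hρ : 1 / ((M / (4 * B)) ^ 2 / (2 * B)) < ρ) (hε : 0 < ε) :
    ∃ R : ℕ, ∀ (t : ℕ → ℝ) (g h : ℝ → ℂ), FData c a0 R B t g h →
      Fine (cut t a1) ε ρ h ∨ Fine (cut t a1) ε ρ g := by
  have hM0 : 0 < M := by
    rw [hM]
    apply Finset.sum_pos
    · intro i _
      exact hc _
    · rw [Finset.nonempty_range_iff]
      omega
  have hd : 0 < (M / (4 * B)) ^ 2 / (2 * B) := by positivity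
  by_contra hcon
  push Not at hcon
  choose t g h hD hnh hng using hcon
  rcases seq_low c hc hanti hcs a0 a1 h1 h01 B hB M hM hMB hmass hsm1 σ hσ0 hσ hsm2 t g h hD with
    hl | hl
  · obtain ⟨n, hn⟩ := half t h B a1 (fun n => (hD n).hpos) (fun n => (hD n).hsum)
      (fun n => (hD n).hB) _ hd hl ρ ε hρ hε
    exact hnh n hn
  · obtain ⟨n, hn⟩ := half t g B a1 (fun n => (hD n).gpos) (fun n => (hD n).gsum)
      (fun n => (hD n).gB) _ hd hl ρ ε hρ hε
    exact hng n hn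

end J805
end Pool.Agent.Y320.FR
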