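import Pool.Agent.Y320.FR.Defs2
import Pool.Agent.Y320.FR.J551
import Pool.Agent.Y320.FR.J555

set_option autoImplicit false

namespace Pool.Agent.Y320.FR

alias lemmaL := J551.lemmaL
alias star_tendsto := J554.star_tendsto
alias star_l1 := J554.star_l1
alias star_l2 := J554.star_l2
alias star_lift := J554.star_lift
alias star_conv := J555.star_conv
alias star_l2_limit := J555.star_l2_limit

end Pool.Agent.Y320.FR
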