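import Pool.Agent.Y320.FR.Lemmas3
import Pool.Agent.Y320.FR.J803

set_option autoImplicit false

namespace Pool.Agent.Y320.FR

alias conv_om := J803.conv_om

end Pool.Agent.Y320.FR
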