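import Pool.Agent.Y320.FR.J805
import Pool.Agent.Y320.FR.J806
import Pool.Agent.Y320.FR.J858

set_option autoImplicit false

namespace Pool.Agent.Y320.FR

alias core_T1 := J805.core_T1
alias core_T2 := J806.core_T2
alias fine_limit := J858.fine_limit
alias cc_pos := Pool.Agent.Helper976.Fac.J855.cc_pos
alias cc_antitone := Pool.Agent.Helper976.Fac.J855.cc_antitone
alias cc_summable := Pool.Agent.Helper976.Fac.J855.cc_summable
alias cc_block := Pool.Agent.Helper976.Fac.J855.cc_block
alias cc_mass := Pool.Agent.Helper976.Fac.J855.cc_mass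
alias cc_sq := Pool.Agent.Helper976.Fac.J855.cc_sq
alias cc_num := Pool.Agent.Helper976.Fac.J856.cc_num

end Pool.Agent.Y320.FR
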